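import Pool.Agent.Helper65.TB.Defs

/-!
# Project TB: no loss at the points outside the critical set
-/

set_option autoImplicit false

namespace Pool.Agent.Helper65.TB

open MvPolynomial Filter Topology
open Pool.Agent.Helper36 (step iter)

variable {K Ω : Type} [Field K] [NormedField Ω] [Algebra K Ω] {N : ℕ}

/-- Taylor's formula to first order. -/
theorem StepB_taylor (p : MvPolynomial (Fin N) K) (q : Fin N → Ω) :
    ∃ C : ℝ, 0 ≤ C ∧ ∀ x : Fin N → Ω, ‖x - q‖ ≤ 1 →
      ‖aeval x p - aeval q p - ∑ j, aeval q (pderiv j p) * (x j - q j)‖ ≤ C * ‖x - q‖ ^ 2 := by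
  classical
  induction p using MvPolynomial.induction_on with
  | C a =>
    refine ⟨0, le_refl 0, fun x _ => ?_⟩
    simp [MvPolynomial.algHom_C]
  | add f g hf hg =>
    obtain ⟨C1, h1, H1⟩ := hf
    obtain ⟨C2, h2, H2⟩ := hg
    refine ⟨C1 + C2, by positivity, fun x hx => ?_⟩
    have h3 : aeval x (f + g) - aeval q (f + g)
        - ∑ j, aeval q (pderiv j (f + g)) * (x j - q j)
        = (aeval x f - aeval q f - ∑ j, aeval q (pderiv j f) * (x j - q j))
          + (aeval x g - aeval q g - ∑ j, aeval q (pderiv j g) * (x j - q j)) := by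
      simp only [map_add, add_mul, Finset.sum_add_distrib]
      ring
    rw [h3]
    refine (norm_add_le _ _).trans ?_
    have := add_le_add (H1 x hx) (H2 x hx)
    linarith
  | mul_X f i hf =>
    obtain ⟨C1, h1, H1⟩ := hf
    set S : ℝ := ∑ j, ‖aeval q (pderiv j f)‖ with hS
    have hS0 : 0 ≤ S := Finset.sum_nonneg fun j _ => norm_nonneg _
    refine ⟨C1 * (‖q‖ + 1) + S, by positivity, fun x hx => ?_⟩
    set D : Ω := ∑ j, aeval q (pderiv j f) * (x j - q j) with hD
    have h3 : aeval x (f * X i) - aeval q (f * X i)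
        - ∑ j, aeval q (pderiv j (f * X i)) * (x j - q j)
        = (aeval x f - aeval q f - D) * x i + D * (x i - q i) := by
      have h4 : ∑ j, aeval q (pderiv j (f * X i)) * (x j - q j)
          = D * q i + aeval q f * (x i - q i) := by
        have h5 : ∀ j, aeval q (pderiv j (f * X i)) * (x j - q j)
            = aeval q (pderiv j f) * (x j - q j) * q i
              + (if j = i then aeval q f * (x j - q j) else 0) := by
          intro j
          rw [pderiv_mul, map_add, map_mul, map_mul, aeval_X, pderiv_X]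
          by_cases hji : j = i
          · subst hji
            simp
            ring
          · rw [Pi.single_eq_of_ne (fun h => hji h.symm), if_neg hji]
            simp
            ring
        rw [Finset.sum_congr rfl fun j _ => h5 j, Finset.sum_add_distrib, ← Finset.sum_mul,
          Finset.sum_ite_eq' Finset.univ i, if_pos (Finset.mem_univ i)]
      rw [h4, map_mul, map_mul, aeval_X, aeval_X]
      ring
    rw [h3]
    refine (norm_add_le _ _).trans ?_
    rw [norm_mul, norm_mul]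
    have hxi : ‖x i - q i‖ ≤ ‖x - q‖ := norm_le_pi_norm (x - q) i
    have hx1 : ‖x i‖ ≤ ‖q‖ + 1 := by
      have h5 : x i = q i + (x i - q i) := by ring
      have h6 : ‖q i‖ ≤ ‖q‖ := norm_le_pi_norm q i
      rw [h5]
      exact (norm_add_le _ _).trans (by linarith)
    have hDn : ‖D‖ ≤ S * ‖x - q‖ := by
      rw [hD, hS, Finset.sum_mul]
      refine (norm_sum_le _ _).trans (Finset.sum_le_sum fun j _ => ?_)
      rw [norm_mul]
      exact mul_le_mul_of_nonneg_left (norm_le_pi_norm (x - q) j) (norm_nonneg _)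
    have hA := H1 x hx
    have hn := norm_nonneg (x - q)
    have e1 : ‖aeval x f - aeval q f - D‖ * ‖x i‖ ≤ C1 * ‖x - q‖ ^ 2 * (‖q‖ + 1) :=
      mul_le_mul hA hx1 (norm_nonneg _) (by positivity)
    have e2 : ‖D‖ * ‖x i - q i‖ ≤ S * ‖x - q‖ * ‖x - q‖ :=
      mul_le_mul hDn hxi (norm_nonneg _) (by positivity)
    nlinarith [e1, e2]

/-- A point near `q` is controlled by its image. -/
theorem StepB_lower {F : Fin N → MvPolynomial (Fin N) K} {q : Fin N → Ω}
    (hdet : aeval q (jd F) ≠ 0) :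
    ∃ C0 C1 : ℝ, 0 ≤ C0 ∧ 0 ≤ C1 ∧ ∀ x : Fin N → Ω, ‖x - q‖ ≤ 1 →
      ‖x - q‖ ≤ C0 * (‖step F x - step F q‖ + C1 * ‖x - q‖ ^ 2) := by
  classical
  choose C hC0 hC using fun i => StepB_taylor (F i) q
  set J : Matrix (Fin N) (Fin N) Ω := Matrix.of fun i j => aeval q (pderiv j (F i)) with hJ
  have hJd : J.det = aeval q (jd F) := by
    rw [jd, AlgHom.map_det]
    rfl
  have hJu : IsUnit J.det := by
    rw [hJd]
    exact isUnit_iff_ne_zero.2 hdet
  have hinv : J⁻¹ * J = 1 := Matrix.nonsing_inv_mul J hJu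
  set C1 : ℝ := ∑ i, C i with hC1
  have hC1' : ∀ i, C i ≤ C1 := fun i =>
    Finset.single_le_sum (fun j _ => hC0 j) (Finset.mem_univ i)
  have hC1n : 0 ≤ C1 := Finset.sum_nonneg fun j _ => hC0 j
  set B : ℝ := ∑ i, ∑ j, ‖J⁻¹ i j‖ with hB
  have hBn : 0 ≤ B := Finset.sum_nonneg fun i _ => Finset.sum_nonneg fun j _ => norm_nonneg _
  refine ⟨B, C1, hBn, hC1n, fun x hx => ?_⟩
  set y : Fin N → Ω := J.mulVec (x - q) with hy
  have hxy : x - q = J⁻¹.mulVec y := by
    rw [hy, Matrix.mulVec_mulVec, hinv, Matrix.one_mulVec]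
  have hyn : ∀ i, ‖y i‖ ≤ ‖step F x - step F q‖ + C1 * ‖x - q‖ ^ 2 := by
    intro i
    have h1 : y i = ∑ j, aeval q (pderiv j (F i)) * (x j - q j) := by
      rw [hy]
      rfl
    have h2 : y i = (step F x - step F q) i - (aeval x (F i) - aeval q (F i)
        - ∑ j, aeval q (pderiv j (F i)) * (x j - q j)) := by
      rw [h1, Pi.sub_apply, step, step]
      ring
    rw [h2]
    refine (norm_sub_le _ _).trans ?_
    have h3 : ‖(step F x - step F q) i‖ ≤ ‖step F x - step F q‖ := norm_le_pi_norm _ i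
    have h4 := hC i x hx
    have h5 : C i * ‖x - q‖ ^ 2 ≤ C1 * ‖x - q‖ ^ 2 :=
      mul_le_mul_of_nonneg_right (hC1' i) (by positivity)
    linarith
  have hE : 0 ≤ ‖step F x - step F q‖ + C1 * ‖x - q‖ ^ 2 := by positivity
  rw [pi_norm_le_iff_of_nonneg (mul_nonneg hBn hE)]
  intro i
  have hxi : (x - q) i = ∑ j, J⁻¹ i j * y j := congrFun hxy i
  rw [hxi]
  refine (norm_sum_le _ _).trans ?_
  have h6 : ∀ j ∈ Finset.univ, ‖J⁻¹ i j * y j‖
      ≤ ‖J⁻¹ i j‖ * (‖step F x - step F q‖ + C1 * ‖x - q‖ ^ 2) := by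
    intro j _
    rw [norm_mul]
    exact mul_le_mul_of_nonneg_left (hyn j) (norm_nonneg _)
  refine (Finset.sum_le_sum h6).trans ?_
  rw [← Finset.sum_mul]
  refine mul_le_mul_of_nonneg_right ?_ hE
  exact Finset.single_le_sum (f := fun i => ∑ j, ‖J⁻¹ i j‖)
    (fun k _ => Finset.sum_nonneg fun j _ => norm_nonneg _) (Finset.mem_univ i)

/-- Near a point where the Jacobian determinant does not vanish the map is bi-Lipschitz. -/
theorem app_of_det {F : Fin N → MvPolynomial (Fin N) K} {q : Fin N → Ω}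
    (hdet : aeval q (jd F) ≠ 0) {𝒰 : Ultrafilter ℕ} {s : ℕ → ℝ}
    (hs : Tendsto s (𝒰 : Filter ℕ) atTop) {u : ℕ → Fin N → Ω} {κ κ' : ℝ} (hκ' : 0 < κ')
    (h' : App 𝒰 s u q κ') (h : App 𝒰 s (fun n => step F (u n)) (step F q) κ) :
    App 𝒰 s u q κ := by
  obtain ⟨C0, C1, h0, h1, H⟩ := StepB_lower hdet
  obtain ⟨A, hA⟩ := h'
  obtain ⟨B, hB⟩ := h
  have ht : Tendsto (fun n => A * Real.exp (-κ' * s n)) (𝒰 : Filter ℕ) (𝓝 0) := by
    have e1 : Tendsto (fun n => -κ' * s n) (𝒰 : Filter ℕ) atBot :=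
      hs.const_mul_atTop_of_neg (neg_lt_zero.2 hκ')
    have e2 := Real.tendsto_exp_atBot.comp e1
    have e3 := e2.const_mul A
    rw [mul_zero] at e3
    exact e3
  have ht2 : Tendsto (fun n => ‖u n - q‖) (𝒰 : Filter ℕ) (𝓝 0) :=
    squeeze_zero' (Eventually.of_forall fun n => norm_nonneg _) hA ht
  have hpos : (0 : ℝ) < 1 / (2 * (C0 * C1) + 1) := by positivity
  have hev : ∀ᶠ n in (𝒰 : Filter ℕ), ‖u n - q‖ < 1 / (2 * (C0 * C1) + 1) :=
    ht2.eventually_lt_const hpos
  have hev1 : ∀ᶠ n in (𝒰 : Filter ℕ), ‖u n - q‖ < 1 := ht2.eventually_lt_const one_pos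
  refine ⟨2 * C0 * B, ?_⟩
  filter_upwards [hev, hev1, hB] with n hn1 hn2 hn3
  have hw := H (u n) hn2.le
  have hwn := norm_nonneg (u n - q)
  have h5 : C0 * C1 * ‖u n - q‖ ^ 2 ≤ ‖u n - q‖ / 2 := by
    have h6 : (2 * (C0 * C1) + 1) * ‖u n - q‖ ≤ 1 := by
      have h7 : 0 < 2 * (C0 * C1) + 1 := by positivity
      rw [lt_div_iff₀ h7] at hn1
      linarith [hn1]
    have h8 : C0 * C1 * ‖u n - q‖ ≤ 1 / 2 := by
      have : 0 ≤ C0 * C1 := by positivity
      nlinarith
    calc C0 * C1 * ‖u n - q‖ ^ 2 = C0 * C1 * ‖u n - q‖ * ‖u n - q‖ := by ring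
      _ ≤ 1 / 2 * ‖u n - q‖ := mul_le_mul_of_nonneg_right h8 hwn
      _ = ‖u n - q‖ / 2 := by ring
  have h9 : ‖u n - q‖ ≤ 2 * C0 * ‖step F (u n) - step F q‖ := by
    have h10 : C0 * (‖step F (u n) - step F q‖ + C1 * ‖u n - q‖ ^ 2)
        = C0 * ‖step F (u n) - step F q‖ + C0 * C1 * ‖u n - q‖ ^ 2 := by ring
    rw [h10] at hw
    linarith
  calc ‖u n - q‖ ≤ 2 * C0 * ‖step F (u n) - step F q‖ := h9
    _ ≤ 2 * C0 * (B * Real.exp (-κ * s n)) :=
        mul_le_mul_of_nonneg_left hn3 (by positivity)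
    _ = 2 * C0 * B * Real.exp (-κ * s n) := by ring

end Pool.Agent.Helper65.TB
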