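import Pool.Agent.Helper65.TB.StepA
import Pool.Agent.Helper65.TB.StepB

/-!
# Project TB: the backward orbit of limits
-/

set_option autoImplicit false

namespace Pool.Agent.Helper65.TB

open MvPolynomial Filter Topology
open Pool.Agent.Helper36 (step iter)

variable {K Ω : Type} [Field K] [NormedField Ω] [IsAlgClosed Ω] [Algebra K Ω] {N : ℕ}

open scoped Classical in
/-- The number of critical points among `q 1, ..., q m`. -/
noncomputable def crit (F : Fin N → MvPolynomial (Fin N) K) (q : ℕ → Fin N → Ω) (m : ℕ) : ℕ :=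
  ((Finset.Icc 1 m).filter fun j => aeval (q j) (jd F) = 0).card

omit [IsAlgClosed Ω] in
theorem Chain_crit_zero (F : Fin N → MvPolynomial (Fin N) K) (q : ℕ → Fin N → Ω) :
    crit F q 0 = 0 := by
  classical
  unfold crit
  simp

omit [IsAlgClosed Ω] in
open scoped Classical in
theorem Chain_crit_succ (F : Fin N → MvPolynomial (Fin N) K) (q : ℕ → Fin N → Ω) (m : ℕ) :
    crit F q (m + 1) = crit F q m + if aeval (q (m + 1)) (jd F) = 0 then 1 else 0 := by
  unfold crit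
  have h1 : Finset.Icc 1 (m + 1) = insert (m + 1) (Finset.Icc 1 m) := by
    ext j
    simp only [Finset.mem_insert, Finset.mem_Icc]
    omega
  have h2 : m + 1 ∉ Finset.Icc 1 m := by
    simp
  rw [h1, Finset.filter_insert]
  split_ifs with h
  · rw [Finset.card_insert_of_notMem]
    exact fun h3 => h2 (Finset.mem_filter.1 h3).1
  · rfl

omit [IsAlgClosed Ω] in
theorem Chain_step_smul {F : Fin N → MvPolynomial (Fin N) K} {d : ℕ}
    (hF : ∀ i, (F i).IsHomogeneous d) (c : Ω) (x : Fin N → K) :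
    step F (c • vec Ω x) = c ^ d • vec Ω (step F x) := by
  funext i
  have h1 : aeval (c • vec Ω x) (F i) = c ^ d * aeval (vec Ω x) (F i) :=
    Pool.Agent.Helper36.aeval_smul_homogeneous (hF i) c _
  have h2 : aeval (vec Ω x) (F i) = algebraMap K Ω (aeval x (F i)) := by
    have := aeval_algebraMap_apply (A := K) Ω x (F i)
    exact this
  change aeval (c • vec Ω x) (F i) = c ^ d * algebraMap K Ω (aeval x (F i))
  rw [h1, h2]

/-- One step of the construction. -/
theorem Chain_next {F : Fin N → MvPolynomial (Fin N) K} {d t : ℕ} (hd : 1 ≤ d)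
    (hF : ∀ i, (F i).IsHomogeneous d) (ht : 1 ≤ t) (hint : IntBy F t) {𝒰 : Ultrafilter ℕ}
    (h𝒰 : (𝒰 : Filter ℕ) ≤ atTop) {s : ℕ → ℝ} (hs : Tendsto s (𝒰 : Filter ℕ) atTop)
    (x : Fin N → K) (m : ℕ) {c : ℕ → Ω} {q : Fin N → Ω} (hq : ∀ i, IsAlgebraic K (q i)) {κ : ℝ}
    (hκ : 0 < κ) (h : App 𝒰 s (fun n => c n • vec Ω (iter F x (n - m))) q κ) :
    ∃ (q' : Fin N → Ω) (c' : ℕ → Ω), step F q' = q ∧ (∀ i, IsAlgebraic K (q' i)) ∧
      App 𝒰 s (fun n => c' n • vec Ω (iter F x (n - (m + 1)))) q' (κ / t) ∧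
      (aeval q' (jd F) ≠ 0 → App 𝒰 s (fun n => c' n • vec Ω (iter F x (n - (m + 1)))) q' κ) := by
  have hroot : ∀ n, ∃ z : Ω, z ^ d = c n := fun n =>
    IsAlgClosed.exists_pow_nat_eq (c n) (by omega)
  choose c' hc' using hroot
  have happ : App 𝒰 s (fun n => step F (c' n • vec Ω (iter F x (n - (m + 1))))) q κ := by
    obtain ⟨C, hC⟩ := h
    refine ⟨C, ?_⟩
    filter_upwards [hC, h𝒰 (eventually_ge_atTop (m + 1))] with n hn hn1
    have h1 : iter F x (n - m) = step F (iter F x (n - (m + 1))) := by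
      rw [← Pool.Agent.Helper36.iter_succ, show n - (m + 1) + 1 = n - m by
        have : m + 1 ≤ n := hn1
        omega]
    rw [h1] at hn
    rw [Chain_step_smul hF, hc']
    exact hn
  obtain ⟨q', h1, h2, h3⟩ := exists_pre ht hint hs hκ happ
  refine ⟨q', c', h1, h2 hq, h3, fun hdet => ?_⟩
  have ht0 : (0 : ℝ) < t := by exact_mod_cast ht
  refine app_of_det hdet hs (div_pos hκ ht0) h3 ?_
  rw [h1]
  exact happ

theorem exists_chain {F : Fin N → MvPolynomial (Fin N) K} {d t : ℕ} (hd : 1 ≤ d)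
    (hF : ∀ i, (F i).IsHomogeneous d) (ht : 1 ≤ t) (hint : IntBy F t) {𝒰 : Ultrafilter ℕ}
    (h𝒰 : (𝒰 : Filter ℕ) ≤ atTop) {s : ℕ → ℝ} (hs : Tendsto s (𝒰 : Filter ℕ) atTop)
    (x : Fin N → K) {c₀ : ℕ → Ω} {y : Fin N → Ω} (hy : ∀ i, IsAlgebraic K (y i)) {κ : ℝ}
    (hκ : 0 < κ) (h : App 𝒰 s (fun n => c₀ n • vec Ω (iter F x n)) y κ) :
    ∃ (q : ℕ → Fin N → Ω) (c : ℕ → ℕ → Ω), q 0 = y ∧ (∀ m, step F (q (m + 1)) = q m) ∧
      (∀ m i, IsAlgebraic K (q m i)) ∧
      ∀ m, App 𝒰 s (fun n => c m n • vec Ω (iter F x (n - m))) (q m) (κ / t ^ crit F q m) := by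
  classical
  have ht0 : (0 : ℝ) < t := by exact_mod_cast ht
  let P : ℕ → (Fin N → Ω) × (ℕ → Ω) × ℕ → Prop := fun m p =>
    (∀ i, IsAlgebraic K (p.1 i)) ∧
      App 𝒰 s (fun n => p.2.1 n • vec Ω (iter F x (n - m))) p.1 (κ / t ^ p.2.2)
  have hstep : ∀ m p, P m p → ∃ p', P (m + 1) p' ∧ step F p'.1 = p.1 ∧
      p'.2.2 = p.2.2 + if aeval p'.1 (jd F) = 0 then 1 else 0 := by
    rintro m ⟨q, c, k⟩ ⟨hq, happ⟩
    obtain ⟨q', c', h1, h2, h3, h4⟩ := Chain_next hd hF ht hint h𝒰 hs x m hq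
      (div_pos hκ (pow_pos ht0 k)) happ
    by_cases hdet : aeval q' (jd F) = 0
    · refine ⟨(q', c', k + 1), ⟨h2, ?_⟩, h1, ?_⟩
      · dsimp only
        rw [pow_succ, ← div_div]
        exact h3
      · dsimp only
        rw [if_pos hdet]
    · refine ⟨(q', c', k), ⟨h2, h4 hdet⟩, h1, ?_⟩
      dsimp only
      rw [if_neg hdet, add_zero]
  choose! nx hnx using hstep
  let f : ℕ → (Fin N → Ω) × (ℕ → Ω) × ℕ := fun m => Nat.rec (y, c₀, 0) (fun m p => nx m p) m
  have hf0 : f 0 = (y, c₀, 0) := rfl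
  have hfs : ∀ m, f (m + 1) = nx m (f m) := fun m => rfl
  have hP : ∀ m, P m (f m) := by
    intro m
    induction m with
    | zero =>
      refine ⟨hy, ?_⟩
      rw [hf0]
      dsimp only
      rw [pow_zero, div_one]
      exact h
    | succ m ih =>
      rw [hfs]
      exact (hnx m _ ih).1
  have hk : ∀ m, (f m).2.2 = crit F (fun m => (f m).1) m := by
    intro m
    induction m with
    | zero => rw [Chain_crit_zero, hf0]
    | succ m ih =>
      rw [Chain_crit_succ, ← ih]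
      rw [hfs]
      exact (hnx m _ (hP m)).2.2
  refine ⟨fun m => (f m).1, fun m => (f m).2.1, rfl, fun m => ?_, fun m => (hP m).1, fun m => ?_⟩
  · dsimp only
    rw [hfs]
    exact (hnx m _ (hP m)).2.1
  · rw [← hk]
    exact (hP m).2

end Pool.Agent.Helper65.TB
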