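import Pool.Agent.Helper65.RP.Defs
import Pool.Agent.Helper36.Iter

/-!
# Project TB (contact with an algebraic point at a fixed place): definitions
-/

set_option autoImplicit false

namespace Pool.Agent.Helper65.TB

open MvPolynomial Filter Topology
open Pool.Agent.Helper36 (step iter)

variable {K Ω : Type} [Field K] [NormedField Ω] [Algebra K Ω] {N : ℕ}

/-- The vectors `u n` tend to `q` along `𝒰` with rate at least `κ` (scale `s`). -/
def App (𝒰 : Ultrafilter ℕ) (s : ℕ → ℝ) (u : ℕ → Fin N → Ω) (q : Fin N → Ω) (κ : ℝ) : Prop :=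
  ∃ C : ℝ, ∀ᶠ n in (𝒰 : Filter ℕ), ‖u n - q‖ ≤ C * Real.exp (-κ * s n)

/-- The coordinates are integral over `K[F]`, of degree at most `t`. -/
def IntBy (F : Fin N → MvPolynomial (Fin N) K) (t : ℕ) : Prop :=
  ∀ i : Fin N, ∃ R : Polynomial (MvPolynomial (Fin N) K), R.Monic ∧ R.natDegree ≤ t ∧
    (R.map ((bind₁ F : MvPolynomial (Fin N) K →ₐ[K] MvPolynomial (Fin N) K) :
      MvPolynomial (Fin N) K →+* MvPolynomial (Fin N) K)).eval (X i) = 0

/-- The Jacobian determinant. -/
noncomputable def jd (F : Fin N → MvPolynomial (Fin N) K) : MvPolynomial (Fin N) K :=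
  (Matrix.of fun i j => pderiv j (F i)).det

open scoped Classical in
/-- The set has positive upper density. -/
def PosUD (A : Set ℕ) : Prop :=
  ∃ ε : ℝ, 0 < ε ∧ ∀ M : ℕ, ∃ n, M ≤ n ∧ 0 < n ∧ ε * n ≤ ((Finset.range n).filter (· ∈ A)).card

/-- The vector over `Ω` of a vector over `K`. -/
def vec (Ω : Type) [NormedField Ω] [Algebra K Ω] (x : Fin N → K) : Fin N → Ω :=
  fun i => algebraMap K Ω (x i)

end Pool.Agent.Helper65.TB
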