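import Pool.Agent.Helper65.TB.Defs

/-!
# Project TB: sets of positive upper density
-/

set_option autoImplicit false

namespace Pool.Agent.Helper65.TB

theorem PosUD.mono {A B : Set ℕ} (h : A ⊆ B) (hA : PosUD A) : PosUD B := by
  classical
  obtain ⟨ε, hε, hA⟩ := hA
  refine ⟨ε, hε, fun M => ?_⟩
  obtain ⟨n, hn, hn0, hc⟩ := hA M
  refine ⟨n, hn, hn0, hc.trans ?_⟩
  have h1 : ((Finset.range n).filter (· ∈ A)).card ≤ ((Finset.range n).filter (· ∈ B)).card := by
    refine Finset.card_le_card fun l hl => ?_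
    rw [Finset.mem_filter] at hl ⊢
    exact ⟨hl.1, h hl.2⟩
  exact_mod_cast h1

/-- A set of positive upper density meets one of its translates in a set of positive upper
density. -/
theorem exists_shift {A : Set ℕ} (hA : PosUD A) :
    ∃ k, 1 ≤ k ∧ PosUD {l : ℕ | k ≤ l ∧ l ∈ A ∧ l - k ∈ A} := by
  classical
  by_contra hcon
  push Not at hcon
  obtain ⟨Ak, hAk⟩ : ∃ Ak : ℕ → Set ℕ, ∀ k, Ak k = {l : ℕ | k ≤ l ∧ l ∈ A ∧ l - k ∈ A} :=
    ⟨_, fun _ => rfl⟩
  simp only [← hAk] at hcon
  obtain ⟨ε, hε, hA⟩ := hA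
  obtain ⟨M', hM'⟩ := exists_nat_ge (2 / ε)
  set M₀ : ℕ := M' + 1 with hM₀
  have hM0 : 0 < M₀ := Nat.succ_pos _
  have hM0' : (0 : ℝ) < M₀ := by exact_mod_cast hM0
  have hM2 : 2 ≤ ε * M₀ := by
    have h1 : 2 / ε ≤ M₀ := by
      refine hM'.trans ?_
      rw [hM₀]
      push_cast
      linarith
    rw [div_le_iff₀ hε] at h1
    linarith
  set δ : ℝ := ε / (8 * M₀) with hδ
  have hδ0 : 0 < δ := by positivity
  have h1 : ∀ k, 1 ≤ k → ∃ M : ℕ, ∀ n, M ≤ n → 0 < n →
      (((Finset.range n).filter (· ∈ Ak k)).card : ℝ) < δ * n := by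
    intro k hk
    have h2 := hcon k hk
    by_contra h3
    push Not at h3
    exact h2 ⟨δ, hδ0, h3⟩
  choose! Mk hMk using h1
  obtain ⟨M₄, hM₄⟩ := exists_nat_ge (4 / ε)
  obtain ⟨n, hn, hn0, hcard⟩ := hA (max ((Finset.Icc 1 M₀).sup Mk) M₄)
  have hn0' : (0 : ℝ) < n := by exact_mod_cast hn0
  have hn4 : 4 ≤ ε * n := by
    have h2 : 4 / ε ≤ n := by
      refine hM₄.trans ?_
      exact_mod_cast (le_max_right _ _).trans hn
    rw [div_le_iff₀ hε] at h2
    linarith
  set S : Finset ℕ := (Finset.range n).filter (· ∈ A) with hS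
  set p : ℕ → Prop := fun l => ∃ k ∈ Finset.Icc 1 M₀, k ≤ l ∧ l - k ∈ A with hp
  have hsplit : (S.filter p).card + (S.filter fun l => ¬ p l).card = S.card :=
    Finset.card_filter_add_card_filter_not p
  -- the elements isolated to the left
  have hiso : (S.filter fun l => ¬ p l).card ≤ n / M₀ + 1 := by
    have h2 : (S.filter fun l => ¬ p l).card ≤ (Finset.range (n / M₀ + 1)).card := by
      refine Finset.card_le_card_of_injOn (fun l => l / M₀) ?_ ?_
      · intro l hl
        rw [Finset.mem_coe, Finset.mem_filter, hS, Finset.mem_filter, Finset.mem_range] at hl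
        rw [Finset.mem_coe, Finset.mem_range, Nat.lt_succ_iff]
        exact Nat.div_le_div_right hl.1.1.le
      · have key : ∀ l l' : ℕ, l ∈ S.filter (fun l => ¬ p l) → l' ∈ S.filter (fun l => ¬ p l) →
            l / M₀ = l' / M₀ → l < l' → False := by
          intro l l' hl hl' h3 h4
          rw [Finset.mem_filter, hS, Finset.mem_filter] at hl hl'
          refine hl'.2 ⟨l' - l, ?_, Nat.sub_le _ _, ?_⟩
          · rw [Finset.mem_Icc]
            refine ⟨by omega, ?_⟩
            have h5 := Nat.div_add_mod l M₀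
            have h6 := Nat.div_add_mod l' M₀
            have h7 := Nat.mod_lt l' hM0
            rw [h3] at h5
            omega
          · have h5 : l' - (l' - l) = l := by omega
            rw [h5]
            exact hl.1.2
        intro l hl l' hl' h3
        rcases lt_trichotomy l l' with h4 | h4 | h4
        · exact (key l l' hl hl' h3 h4).elim
        · exact h4
        · exact (key l' l hl' hl h3.symm h4).elim
    rwa [Finset.card_range] at h2
  -- the others
  have hoth : ((S.filter p).card : ℝ) ≤ M₀ * (δ * n) := by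
    have h2 : (S.filter p) ⊆ (Finset.Icc 1 M₀).biUnion fun k =>
        (Finset.range n).filter (· ∈ Ak k) := by
      intro l hl
      rw [Finset.mem_filter, hS, Finset.mem_filter] at hl
      obtain ⟨⟨hl1, hl2⟩, k, hk, hkl, hkA⟩ := hl
      rw [Finset.mem_biUnion]
      refine ⟨k, hk, Finset.mem_filter.2 ⟨hl1, ?_⟩⟩
      rw [hAk]
      exact ⟨hkl, hl2, hkA⟩
    have h3 := (Finset.card_le_card h2).trans Finset.card_biUnion_le
    have h4 : ((S.filter p).card : ℝ) ≤ ∑ k ∈ Finset.Icc 1 M₀,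
        (((Finset.range n).filter (· ∈ Ak k)).card : ℝ) := by
      exact_mod_cast h3
    have h5 : ∑ k ∈ Finset.Icc 1 M₀,
        (((Finset.range n).filter (· ∈ Ak k)).card : ℝ) ≤
        ∑ _k ∈ Finset.Icc 1 M₀, δ * n := by
      refine Finset.sum_le_sum fun k hk => (hMk k (Finset.mem_Icc.1 hk).1 n ?_ hn0).le
      exact (Finset.le_sup (f := Mk) hk).trans ((le_max_left _ _).trans hn)
    rw [Finset.sum_const, Nat.card_Icc, Nat.add_sub_cancel, nsmul_eq_mul] at h5
    exact h4.trans h5
  have h8 : (M₀ : ℝ) * (δ * n) = ε * n / 8 := by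
    rw [hδ]
    field_simp
  have h9 : ((n / M₀ : ℕ) : ℝ) ≤ ε * n / 2 := by
    refine Nat.cast_div_le.trans ?_
    rw [div_le_iff₀ hM0']
    nlinarith
  have h10 : (S.card : ℝ) = ((S.filter p).card : ℝ) + ((S.filter fun l => ¬ p l).card : ℝ) := by
    exact_mod_cast hsplit.symm
  have h11 : ((S.filter fun l => ¬ p l).card : ℝ) ≤ ((n / M₀ : ℕ) : ℝ) + 1 := by
    exact_mod_cast hiso
  rw [h8] at hoth
  linarith

end Pool.Agent.Helper65.TB
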