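import Pool.Agent.Helper65.TB.Dens

/-!
# Project TB: backward orbits that meet a closed set with positive upper density
-/

set_option autoImplicit false

namespace Pool.Agent.Helper65.TB

open MvPolynomial Filter Topology
open Pool.Agent.Helper36 (step iter)

variable {K Ω : Type} [Field K] [NormedField Ω] [Algebra K Ω] {N : ℕ}

theorem PosUD.nonempty {A : Set ℕ} (hA : PosUD A) : A.Nonempty := by
  classical
  obtain ⟨ε, hε, hA⟩ := hA
  obtain ⟨n, -, hn0, hc⟩ := hA 0
  have h1 : (0 : ℝ) < ε * n := mul_pos hε (by exact_mod_cast hn0)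
  have h2 : (0 : ℝ) < ((Finset.range n).filter (· ∈ A)).card := lt_of_lt_of_le h1 hc
  have h3 : 0 < ((Finset.range n).filter (· ∈ A)).card := by exact_mod_cast h2
  obtain ⟨l, hl⟩ := Finset.card_pos.1 h3
  exact ⟨l, (Finset.mem_filter.1 hl).2⟩

private theorem iter_add' (F : Fin N → MvPolynomial (Fin N) K) (x : Fin N → Ω) (a b : ℕ) :
    iter F x (a + b) = iter F (iter F x b) a := by
  unfold Pool.Agent.Helper36.iter
  rw [Function.iterate_add_apply]

private theorem aeval_bind_iter (F : Fin N → MvPolynomial (Fin N) K) (k : ℕ) :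
    ∀ (x : Fin N → Ω) (g : MvPolynomial (Fin N) K),
      aeval x (((bind₁ F : MvPolynomial (Fin N) K →ₐ[K] MvPolynomial (Fin N) K) ^ k) g) =
        aeval (iter F x k) g := by
  induction k with
  | zero =>
    intro x g
    rw [pow_zero, Pool.Agent.Helper36.iter_zero]
    rfl
  | succ k ih =>
    intro x g
    rw [pow_succ', AlgHom.mul_apply, aeval_bind₁, Pool.Agent.Helper36.iter_succ']
    exact ih _ g

/-- If a backward orbit lies on `J = 0` with positive upper density, then the forward orbit of its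
first point returns to `J = 0` infinitely often. -/
theorem exists_later (F : Fin N → MvPolynomial (Fin N) K) (q : ℕ → Fin N → Ω)
    (hq : ∀ m, step F (q (m + 1)) = q m) (J : MvPolynomial (Fin N) K)
    (hJ : PosUD {j | aeval (q j) J = 0}) (n₀ : ℕ) :
    ∃ n, n₀ ≤ n ∧ aeval (iter F (q 0) n) J = 0 := by
  classical
  set S : Set (Ideal (MvPolynomial (Fin N) K)) :=
    {I | J ∈ I ∧ PosUD {j | ∀ g ∈ I, aeval (q j) g = 0}} with hS
  have hne : S.Nonempty := by
    refine ⟨Ideal.span {J}, Ideal.subset_span rfl, hJ.mono ?_⟩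
    intro j hj g hg
    obtain ⟨c, rfl⟩ := Ideal.mem_span_singleton'.1 hg
    rw [map_mul, show aeval (q j) J = 0 from hj, mul_zero]
  obtain ⟨I, hIS, hImax⟩ := (wellFounded_gt :
    WellFounded (fun a b : Ideal (MvPolynomial (Fin N) K) => a > b)).has_min S hne
  have hmax : ∀ I' ∈ S, I ≤ I' → I' ≤ I := by
    intro I' h1 h2
    by_contra h3
    exact hImax I' h1 (lt_of_le_not_ge h2 h3)
  clear hImax
  obtain ⟨hJI, hIP⟩ := hIS
  obtain ⟨k, hk, hkP⟩ := exists_shift hIP
  have hback : ∀ k l : ℕ, k ≤ l → iter F (q l) k = q (l - k) := by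
    intro k
    induction k with
    | zero => intro l _; rfl
    | succ k ih =>
      intro l hl
      rw [Pool.Agent.Helper36.iter_succ, ih l (by omega)]
      have h1 : l - k = (l - (k + 1)) + 1 := by omega
      rw [h1]
      exact hq _
  set φ : MvPolynomial (Fin N) K →ₐ[K] MvPolynomial (Fin N) K :=
    (bind₁ F : MvPolynomial (Fin N) K →ₐ[K] MvPolynomial (Fin N) K) ^ k with hφ
  have hI2 : I ⊔ Ideal.map (φ : MvPolynomial (Fin N) K →+* MvPolynomial (Fin N) K) I ∈ S := by
    refine ⟨(le_sup_left : I ≤ _) hJI, hkP.mono ?_⟩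
    rintro l ⟨hkl, hl1, hl2⟩
    have h1 : I ⊔ Ideal.map (φ : MvPolynomial (Fin N) K →+* MvPolynomial (Fin N) K) I ≤
        RingHom.ker ((aeval (q l) : MvPolynomial (Fin N) K →ₐ[K] Ω) :
          MvPolynomial (Fin N) K →+* Ω) := by
      refine sup_le (fun g hg => ?_) ?_
      · exact hl1 g hg
      · rw [Ideal.map_le_iff_le_comap]
        intro g hg
        rw [Ideal.mem_comap, RingHom.mem_ker]
        have h2 := aeval_bind_iter F k (q l) g
        rw [hback k l hkl, hl2 g hg] at h2
        exact h2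
    intro g hg
    exact h1 hg
  have hle : Ideal.map (φ : MvPolynomial (Fin N) K →+* MvPolynomial (Fin N) K) I ≤ I :=
    le_sup_right.trans (hmax _ hI2 le_sup_left)
  have hstab : ∀ x : Fin N → Ω, (∀ g ∈ I, aeval x g = 0) → ∀ g ∈ I, aeval (iter F x k) g = 0 := by
    intro x hx g hg
    rw [← aeval_bind_iter F k x g]
    exact hx _ (hle (Ideal.mem_map_of_mem _ hg))
  obtain ⟨j, hj⟩ := hIP.nonempty
  have hmul : ∀ i : ℕ, ∀ g ∈ I, aeval (iter F (q j) (i * k)) g = 0 := by
    intro i
    induction i with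
    | zero => rw [Nat.zero_mul]; exact hj
    | succ i ih =>
      rw [Nat.succ_mul, Nat.add_comm, iter_add']
      exact hstab _ ih
  have hbig : n₀ + j ≤ (n₀ + j) * k := Nat.le_mul_of_pos_right _ hk
  refine ⟨(n₀ + j) * k - j, by omega, ?_⟩
  have h1 := hmul (n₀ + j) J hJI
  have h2 : (n₀ + j) * k = ((n₀ + j) * k - j) + j := by omega
  rw [h2, iter_add', hback j j le_rfl, Nat.sub_self] at h1
  exact h1

end Pool.Agent.Helper65.TB
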