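import Pool.Agent.Helper65.TB.Roth

/-!
# Project TB: the rates decrease like `d ^ (-m)`
-/

set_option autoImplicit false

namespace Pool.Agent.Helper65.TB

open MvPolynomial Filter Topology
open Pool.Agent.Helper65.RP
open Pool.Agent.Helper36 (step iter)

variable {K Ω : Type} [Field K] [NormedField Ω] [Algebra K Ω] {Λ : Type} [Fintype Λ] {N : ℕ}

/-- The coordinates of a sequence of integral vectors grow at most like `exp (C d ^ n)`. -/
theorem rate_le (Z : PD K Ω Λ) {d : ℕ} (hd : 2 ≤ d) {𝒰 : Ultrafilter ℕ}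
    (h𝒰 : (𝒰 : Filter ℕ) ≤ atTop) {x : ℕ → Fin N → K} (hO : ∀ n i, x n i ∈ Z.O) {C : ℝ}
    (hC : 0 ≤ C) (hΩ : ∀ n i, ‖algebraMap K Ω (x n i)‖ ≤ Real.exp (C * d ^ n))
    (habv : ∀ n i l, Z.abv l (x n i) ≤ Real.exp (C * d ^ n))
    (hdist : ∀ n m, n ≠ m → ∃ i j, x n i * x m j ≠ x n j * x m i) :
    ∃ A : ℝ, ∀ (m : ℕ) (q : Fin N → Ω), q ≠ 0 → (∀ i, IsAlgebraic K (q i)) →
      ∀ (κ : ℝ) (c : ℕ → Ω), App 𝒰 (fun n => (d : ℝ) ^ n) (fun n => c n • vec Ω (x (n - m))) q κ →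
        κ ≤ A / d ^ m := by
  classical
  obtain ⟨A, hA, hroth⟩ := roth Z
  refine ⟨(A + 1) * C, fun m q hq halg κ c happ => ?_⟩
  by_contra hlt
  rw [not_le] at hlt
  have hd1 : (1 : ℝ) < d := by exact_mod_cast hd
  have hdm : (0 : ℝ) < (d : ℝ) ^ m := pow_pos (by linarith) m
  have hκ : 0 < κ := lt_of_le_of_lt (div_nonneg (mul_nonneg (by linarith) hC) hdm.le) hlt
  obtain ⟨C₀, hC₀⟩ := happ
  obtain ⟨i₀, hi₀⟩ : ∃ i, q i ≠ 0 := by
    by_contra h
    push Not at h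
    exact hq (funext h)
  have hq0 : 0 < ‖q i₀‖ := norm_pos_iff.2 hi₀
  have hpow : Tendsto (fun n : ℕ => (d : ℝ) ^ n) (𝒰 : Filter ℕ) atTop :=
    (tendsto_pow_atTop_atTop_of_one_lt hd1).mono_left h𝒰
  have hexp : Tendsto (fun n : ℕ => C₀ * Real.exp (-κ * (d : ℝ) ^ n)) (𝒰 : Filter ℕ) (𝓝 0) := by
    have h1 : Tendsto (fun n : ℕ => -κ * (d : ℝ) ^ n) (𝒰 : Filter ℕ) atBot :=
      hpow.const_mul_atTop_of_neg (by linarith)
    have h2 := (Real.tendsto_exp_atBot.comp h1).const_mul C₀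
    simpa using h2
  have hsmall : ∀ᶠ n in (𝒰 : Filter ℕ), C₀ * Real.exp (-κ * (d : ℝ) ^ n) < ‖q i₀‖ / 2 :=
    hexp.eventually (gt_mem_nhds (half_pos hq0))
  have hge : ∀ᶠ n in (𝒰 : Filter ℕ), m ≤ n := h𝒰 (eventually_ge_atTop m)
  -- a coordinate which is not proportional
  obtain ⟨j, hj⟩ : ∃ j, ∀ᶠ n in (𝒰 : Filter ℕ),
      algebraMap K Ω (x (n - m) j) * q i₀ ≠ algebraMap K Ω (x (n - m) i₀) * q j := by
    by_contra hcon
    push Not at hcon
    have h2 := (eventually_all.2 hcon).and hge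
    obtain ⟨n, hn, hmn⟩ := h2.exists
    have h3 : ∀ᶠ n' in (𝒰 : Filter ℕ), n < n' := h𝒰 (eventually_gt_atTop n)
    obtain ⟨n', ⟨hn', hmn'⟩, hnn'⟩ := (h2.and h3).exists
    obtain ⟨i, k, hik⟩ := hdist (n - m) (n' - m) (by omega)
    apply hik
    apply (algebraMap K Ω).injective
    rw [map_mul, map_mul]
    have e1 := hn i
    have e2 := hn k
    have e3 := hn' i
    have e4 := hn' k
    have h4 : (algebraMap K Ω (x (n - m) i) * algebraMap K Ω (x (n' - m) k) -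
        algebraMap K Ω (x (n - m) k) * algebraMap K Ω (x (n' - m) i)) * (q i₀ * q i₀) = 0 := by
      linear_combination (algebraMap K Ω (x (n' - m) k) * q i₀) * e1 +
        (algebraMap K Ω (x (n - m) i₀) * q i) * e4 -
        (algebraMap K Ω (x (n' - m) i) * q i₀) * e2 -
        (algebraMap K Ω (x (n - m) i₀) * q k) * e3
    have h5 := (mul_eq_zero.1 h4).resolve_right (mul_ne_zero hi₀ hi₀)
    exact sub_eq_zero.1 h5
  set α : Ω := q j / q i₀ with hα
  have hαalg : IsAlgebraic K α := by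
    rw [hα, div_eq_mul_inv]
    exact (halg j).mul (halg i₀).inv
  obtain ⟨C₂, hC₂⟩ := hroth α hαalg
  set C₁ : ℝ := (1 + ‖α‖) * (|C₀| + 1) with hC₁
  have hC₁0 : 0 < C₁ := by positivity
  set δ : ℝ := ‖q i₀‖ / 2 with hδ
  have hδ0 : 0 < δ := half_pos hq0
  -- the main inequality
  have hmain : ∀ᶠ n in (𝒰 : Filter ℕ),
      κ * (d : ℝ) ^ n ≤ (A + 1) * C * (d : ℝ) ^ (n - m) + (C₂ + Real.log (C₁ / δ)) := by
    filter_upwards [hC₀, hsmall, hj] with n h1 h2 h3
    have h4 : ∀ i, ‖c n * algebraMap K Ω (x (n - m) i) - q i‖ ≤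
        C₀ * Real.exp (-κ * (d : ℝ) ^ n) := by
      intro i
      refine le_trans ?_ h1
      exact norm_le_pi_norm (c n • vec Ω (x (n - m)) - q) i
    have h5 : δ ≤ ‖c n * algebraMap K Ω (x (n - m) i₀)‖ := by
      have h6 := h4 i₀
      have h7 : ‖q i₀‖ ≤ ‖c n * algebraMap K Ω (x (n - m) i₀)‖ +
          ‖c n * algebraMap K Ω (x (n - m) i₀) - q i₀‖ := by
        have h8 := norm_sub_le (c n * algebraMap K Ω (x (n - m) i₀))
          (c n * algebraMap K Ω (x (n - m) i₀) - q i₀)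
        rwa [sub_sub_cancel] at h8
      rw [hδ]
      linarith
    have h6 : 0 < ‖c n * algebraMap K Ω (x (n - m) i₀)‖ := hδ0.trans_le h5
    have h7 : c n * algebraMap K Ω (x (n - m) i₀) ≠ 0 := norm_pos_iff.1 h6
    have hc0 : c n ≠ 0 := left_ne_zero_of_mul h7
    have hb0 : algebraMap K Ω (x (n - m) i₀) ≠ 0 := right_ne_zero_of_mul h7
    have hb1 : x (n - m) i₀ ≠ 0 := fun h => hb0 (by rw [h, map_zero])
    have h8 : ‖c n * (algebraMap K Ω (x (n - m) j) - α * algebraMap K Ω (x (n - m) i₀))‖ ≤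
        C₁ * Real.exp (-κ * (d : ℝ) ^ n) := by
      have e1 : c n * (algebraMap K Ω (x (n - m) j) - α * algebraMap K Ω (x (n - m) i₀)) =
          (c n * algebraMap K Ω (x (n - m) j) - q j) -
            α * (c n * algebraMap K Ω (x (n - m) i₀) - q i₀) := by
        have : α * q i₀ = q j := div_mul_cancel₀ _ hi₀
        linear_combination -this
      rw [e1]
      have e0 : C₀ * Real.exp (-κ * (d : ℝ) ^ n) ≤ (|C₀| + 1) * Real.exp (-κ * (d : ℝ) ^ n) :=
        mul_le_mul_of_nonneg_right (by linarith [le_abs_self C₀]) (Real.exp_pos _).le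
      calc ‖(c n * algebraMap K Ω (x (n - m) j) - q j) -
            α * (c n * algebraMap K Ω (x (n - m) i₀) - q i₀)‖
          ≤ ‖c n * algebraMap K Ω (x (n - m) j) - q j‖ +
            ‖α * (c n * algebraMap K Ω (x (n - m) i₀) - q i₀)‖ := norm_sub_le _ _
        _ ≤ (|C₀| + 1) * Real.exp (-κ * (d : ℝ) ^ n) +
            ‖α‖ * ((|C₀| + 1) * Real.exp (-κ * (d : ℝ) ^ n)) := by
            rw [norm_mul]
            exact add_le_add ((h4 j).trans e0)
              (mul_le_mul_of_nonneg_left ((h4 i₀).trans e0) (norm_nonneg _))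
        _ = C₁ * Real.exp (-κ * (d : ℝ) ^ n) := by
            rw [hC₁]
            ring
    have hne : algebraMap K Ω (x (n - m) j) ≠ α * algebraMap K Ω (x (n - m) i₀) := by
      intro h
      apply h3
      rw [h]
      have : α * q i₀ = q j := div_mul_cancel₀ _ hi₀
      linear_combination (algebraMap K Ω (x (n - m) i₀)) * this
    have hHn : 0 ≤ C * (d : ℝ) ^ (n - m) := mul_nonneg hC (pow_nonneg (by linarith) _)
    have h9 := hC₂ (x (n - m) j) (x (n - m) i₀) (C * (d : ℝ) ^ (n - m)) (hO _ _) (hO _ _) hb1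
      hHn (hΩ _ _) (hΩ _ _) (fun l => habv _ _ l) (fun l => habv _ _ l) hne
    -- upper bound of the difference
    have h10 : ‖algebraMap K Ω (x (n - m) j) - α * algebraMap K Ω (x (n - m) i₀)‖ * δ ≤
        Real.exp (C * (d : ℝ) ^ (n - m)) * (C₁ * Real.exp (-κ * (d : ℝ) ^ n)) := by
      calc ‖algebraMap K Ω (x (n - m) j) - α * algebraMap K Ω (x (n - m) i₀)‖ * δ
          ≤ ‖algebraMap K Ω (x (n - m) j) - α * algebraMap K Ω (x (n - m) i₀)‖ *
            ‖c n * algebraMap K Ω (x (n - m) i₀)‖ :=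
            mul_le_mul_of_nonneg_left h5 (norm_nonneg _)
        _ = ‖algebraMap K Ω (x (n - m) i₀)‖ *
            ‖c n * (algebraMap K Ω (x (n - m) j) - α * algebraMap K Ω (x (n - m) i₀))‖ := by
            rw [norm_mul, norm_mul]
            ring
        _ ≤ _ := mul_le_mul (hΩ _ _) h8 (norm_nonneg _) (Real.exp_pos _).le
    have h11 : Real.exp (-(A * (C * (d : ℝ) ^ (n - m))) - C₂) ≤
        Real.exp (C * (d : ℝ) ^ (n - m) + Real.log (C₁ / δ) + -κ * (d : ℝ) ^ n) := by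
      refine h9.trans ?_
      rw [Real.exp_add, Real.exp_add, Real.exp_log (div_pos hC₁0 hδ0)]
      rw [← le_div_iff₀ hδ0] at h10
      refine h10.trans (le_of_eq ?_)
      field_simp
    rw [Real.exp_le_exp] at h11
    nlinarith
  -- conclusion
  have hη : 0 < κ * (d : ℝ) ^ m - (A + 1) * C := by
    rw [div_lt_iff₀ hdm] at hlt
    linarith
  have hbig : ∀ᶠ n in (𝒰 : Filter ℕ), (C₂ + Real.log (C₁ / δ)) * (d : ℝ) ^ m /
      (κ * (d : ℝ) ^ m - (A + 1) * C) < (d : ℝ) ^ n := hpow.eventually_gt_atTop _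
  obtain ⟨n, ⟨h1, h2⟩, h3⟩ := ((hmain.and hbig).and hge).exists
  rw [div_lt_iff₀ hη] at h2
  have h4 : (d : ℝ) ^ n = (d : ℝ) ^ (n - m) * (d : ℝ) ^ m := by
    rw [← pow_add, Nat.sub_add_cancel h3]
  rw [h4] at h1 h2
  have h5 : (C₂ + Real.log (C₁ / δ)) < (d : ℝ) ^ (n - m) * (κ * (d : ℝ) ^ m - (A + 1) * C) := by
    by_contra h6
    rw [not_lt] at h6
    have h7 := mul_le_mul_of_nonneg_right h6 hdm.le
    nlinarith
  nlinarith

end Pool.Agent.Helper65.TB
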