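import Pool.Agent.Helper65.TB.Defs
import Pool.Agent.Helper12.RP.IntegralStep

/-!
# Project TB: integrality over the image, upper bounds for the growth
-/

set_option autoImplicit false

namespace Pool.Agent.Helper65.TB

open MvPolynomial Filter Topology
open Pool.Agent.Helper36 (step iter iter_zero iter_succ)

variable {K : Type} [Field K] {N : ℕ}

/-- Forms of degree `d` without common zero: the coordinates are integral over `K[F]`. -/
theorem exists_intBy {L : Type} [Field L] [Algebra K L] [IsAlgClosed L] {d : ℕ} (hd : 1 ≤ d)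
    {F : Fin N → MvPolynomial (Fin N) K} (hF : ∀ i, (F i).IsHomogeneous d)
    (hnz : ∀ x : Fin N → L, (∀ i, aeval x (F i) = 0) → x = 0) : ∃ t, 1 ≤ t ∧ IntBy F t := by
  have hreg : Pool.Agent.Helper65.RP.Regular L d F := by
    refine ⟨fun i => (hF i).totalDegree_le, fun y hy => hnz y fun i => ?_⟩
    have h1 := hy i
    rwa [homogeneousComponent_of_mem (hF i), if_pos rfl] at h1
  choose R hR1 hR2 using fun i => Pool.Agent.Helper12.RP.integral_step hd hreg i
  refine ⟨1 + ∑ i, (R i).natDegree, Nat.le_add_right _ _, fun i => ⟨R i, hR1 i, ?_, hR2 i⟩⟩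
  have h1 := Finset.single_le_sum (f := fun i => (R i).natDegree) (fun _ _ => Nat.zero_le _)
    (Finset.mem_univ i)
  exact h1.trans (Nat.le_add_left _ _)

theorem exists_growth {d : ℕ} (hd : 2 ≤ d) {F : Fin N → MvPolynomial (Fin N) K}
    (hF : ∀ i, (F i).IsHomogeneous d) (x : Fin N → K) (v : AbsoluteValue K ℝ) :
    ∃ C : ℝ, 0 ≤ C ∧ ∀ n i, v (iter F x n i) ≤ Real.exp (C * d ^ n) := by
  classical
  -- one step: `v (F_i(u)) ≤ M * E ^ d` if all `v (u_j) ≤ E`, `1 ≤ E`
  set M : ℝ := 1 + ∑ i, ∑ m ∈ (F i).support, v ((F i).coeff m) with hM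
  have hM1 : 1 ≤ M := by
    rw [hM]
    have : 0 ≤ ∑ i, ∑ m ∈ (F i).support, v ((F i).coeff m) :=
      Finset.sum_nonneg fun i _ => Finset.sum_nonneg fun m _ => v.nonneg _
    linarith
  have hstep : ∀ (u : Fin N → K) (E : ℝ), 0 ≤ E → (∀ j, v (u j) ≤ E) →
      ∀ i, v (step F u i) ≤ M * E ^ d := by
    intro u E hE hu i
    have h1 : step F u i = ∑ m ∈ (F i).support, (F i).coeff m * ∏ j, u j ^ m j := by
      show aeval u (F i) = _
      rw [aeval_def, eval₂_eq']
      rfl
    rw [h1]
    refine (v.sum_le _ _).trans ?_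
    have h2 : ∀ m ∈ (F i).support, v ((F i).coeff m * ∏ j, u j ^ m j) ≤
        v ((F i).coeff m) * E ^ d := by
      intro m hm
      rw [map_mul, map_prod]
      refine mul_le_mul_of_nonneg_left ?_ (v.nonneg _)
      have hd' : ∑ j, m j = d := by
        have h3 := (hF i) (mem_support_iff.1 hm)
        rw [Finsupp.weight_apply, Finsupp.sum_fintype _ _ (by simp)] at h3
        simpa using h3
      calc ∏ j, v (u j ^ m j) ≤ ∏ j, E ^ m j := by
            refine Finset.prod_le_prod (fun j _ => v.nonneg _) fun j _ => ?_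
            rw [map_pow]
            exact pow_le_pow_left₀ (v.nonneg _) (hu j) _
        _ = E ^ d := by rw [Finset.prod_pow_eq_pow_sum, hd']
    refine (Finset.sum_le_sum h2).trans ?_
    rw [← Finset.sum_mul]
    refine mul_le_mul_of_nonneg_right ?_ (pow_nonneg hE _)
    rw [hM]
    have h4 := Finset.single_le_sum (f := fun i => ∑ m ∈ (F i).support, v ((F i).coeff m))
      (fun i _ => Finset.sum_nonneg fun m _ => v.nonneg _) (Finset.mem_univ i)
    linarith
  -- growth: `v (x_n) ≤ exp (C (d ^ n) - log M)` with `C = c₀ + log M`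
  set c₀ : ℝ := ∑ i, v (x i) with hc₀
  have hc₀' : 0 ≤ c₀ := Finset.sum_nonneg fun i _ => v.nonneg _
  have hlM : 0 ≤ Real.log M := Real.log_nonneg hM1
  have hdr : (2 : ℝ) ≤ d := by exact_mod_cast hd
  have hpow : ∀ n : ℕ, (1 : ℝ) ≤ (d : ℝ) ^ n := fun n => one_le_pow₀ (by linarith)
  have key : ∀ n i, v (iter F x n i) ≤ Real.exp ((c₀ + Real.log M) * d ^ n - Real.log M) := by
    intro n
    induction n with
    | zero =>
      intro i
      rw [iter_zero, pow_zero, mul_one]
      have h5 : v (x i) ≤ c₀ :=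
        Finset.single_le_sum (f := fun i => v (x i)) (fun i _ => v.nonneg _) (Finset.mem_univ i)
      have h6 := Real.add_one_le_exp c₀
      have h7 : c₀ + Real.log M - Real.log M = c₀ := by ring
      rw [h7]
      linarith
    | succ n ih =>
      intro i
      rw [iter_succ]
      refine (hstep _ _ (Real.exp_nonneg _) ih i).trans ?_
      rw [← Real.exp_nat_mul]
      nth_rewrite 1 [← Real.exp_log (show 0 < M by linarith)]
      rw [← Real.exp_add]
      refine Real.exp_le_exp.2 ?_
      have h8 : (2 : ℝ) * Real.log M ≤ d * Real.log M := mul_le_mul_of_nonneg_right hdr hlM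
      rw [pow_succ]
      nlinarith
  refine ⟨c₀ + Real.log M, by linarith, fun n i => (key n i).trans ?_⟩
  exact Real.exp_le_exp.2 (by linarith)

/-- The coordinates stay in a subring. -/
theorem iter_mem {F : Fin N → MvPolynomial (Fin N) K} {x : Fin N → K} {O : Subring K}
    (hFO : ∀ i m, (F i).coeff m ∈ O) (hxO : ∀ i, x i ∈ O) (n : ℕ) (i : Fin N) :
    iter F x n i ∈ O := by
  induction n generalizing i with
  | zero => exact hxO i
  | succ n ih =>
    rw [iter_succ]
    have h1 : step F (iter F x n) i =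
        ∑ m ∈ (F i).support, (F i).coeff m * ∏ j, iter F x n j ^ m j := by
      show aeval (iter F x n) (F i) = _
      rw [aeval_def, eval₂_eq']
      rfl
    rw [h1]
    refine Subring.sum_mem _ fun m _ => Subring.mul_mem _ (hFO i m) ?_
    exact Subring.prod_mem _ fun j _ => Subring.pow_mem _ (ih j) _

end Pool.Agent.Helper65.TB
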