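import Pool.Agent.Helper65.TB.Chain
import Pool.Agent.Helper65.TB.Noeth
import Pool.Agent.Helper65.TB.Rate
import Pool.Agent.Helper65.TB.Up

/-!
# Project TB: no positive rate, local form
-/

set_option autoImplicit false

namespace Pool.Agent.Helper65.TB

open MvPolynomial Filter Topology
open Pool.Agent.Helper65.RP
open Pool.Agent.Helper36 (step iter)

variable {K Ω : Type} [Field K] [NormedField Ω] [IsAlgClosed Ω] [Algebra K Ω]
  {Λ : Type} [Fintype Λ] {N : ℕ}

omit [IsAlgClosed Ω] in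
/-- If the number of critical points grows linearly, they have positive upper density. -/
theorem posUD_of_crit {F : Fin N → MvPolynomial (Fin N) K} {q : ℕ → Fin N → Ω} {θ C : ℝ}
    (hθ : 0 < θ) (h : ∀ m : ℕ, θ * m - C ≤ crit F q m) : PosUD {j | aeval (q j) (jd F) = 0} := by
  classical
  refine ⟨θ / 2, by positivity, fun M => ?_⟩
  obtain ⟨n₁, hn₁⟩ := exists_nat_gt ((θ + C) / (θ / 2))
  refine ⟨max (max M n₁) 1, (le_max_left _ _).trans (le_max_left _ _), by
    exact lt_of_lt_of_le Nat.one_pos (le_max_right _ _), ?_⟩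
  set n := max (max M n₁) 1 with hn
  have hn1 : 1 ≤ n := le_max_right _ _
  have hnn₁ : (n₁ : ℝ) ≤ n := by exact_mod_cast (le_max_right _ _).trans (le_max_left _ _)
  have h1 : (crit F q (n - 1) : ℝ) ≤
      ((Finset.range n).filter (· ∈ {j | aeval (q j) (jd F) = 0})).card := by
    rw [crit]
    have h2 : ((Finset.Icc 1 (n - 1)).filter fun j => aeval (q j) (jd F) = 0).card ≤
        ((Finset.range n).filter (· ∈ {j | aeval (q j) (jd F) = 0})).card := by
      refine Finset.card_le_card fun j hj => ?_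
      rw [Finset.mem_filter, Finset.mem_Icc] at hj
      rw [Finset.mem_filter, Finset.mem_range]
      exact ⟨by omega, hj.2⟩
    exact_mod_cast h2
  refine le_trans ?_ (le_trans (h (n - 1)) ?_)
  · have h3 : ((n - 1 : ℕ) : ℝ) = n - 1 := by
      rw [Nat.cast_sub hn1, Nat.cast_one]
    rw [h3]
    have h4 : (θ + C) / (θ / 2) < n := lt_of_lt_of_le hn₁ hnn₁
    rw [div_lt_iff₀ (by positivity)] at h4
    nlinarith
  · exact h1

/-- The absolute value of `K` given by the norm of `Ω`. -/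
noncomputable def nabv (K Ω : Type) [Field K] [NormedField Ω] [Algebra K Ω] :
    AbsoluteValue K ℝ where
  toFun x := ‖algebraMap K Ω x‖
  map_mul' x y := by
    show ‖algebraMap K Ω (x * y)‖ = ‖algebraMap K Ω x‖ * ‖algebraMap K Ω y‖
    rw [map_mul, norm_mul]
  nonneg' x := norm_nonneg _
  eq_zero' x := by
    show ‖algebraMap K Ω x‖ = 0 ↔ x = 0
    rw [norm_eq_zero, map_eq_zero]
  add_le' x y := by
    show ‖algebraMap K Ω (x + y)‖ ≤ ‖algebraMap K Ω x‖ + ‖algebraMap K Ω y‖
    rw [map_add]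
    exact norm_add_le _ _

/-- An orbit does not tend to a point with finitely many critical iterates with positive rate. -/
theorem no_rate (Z : PD K Ω Λ) {d : ℕ} (hd : 2 ≤ d) {F : Fin N → MvPolynomial (Fin N) K}
    (hF : ∀ i, (F i).IsHomogeneous d)
    (hnz : ∀ x : Fin N → Ω, (∀ i, aeval x (F i) = 0) → x = 0) {x : Fin N → K}
    (hO : ∀ n i, iter F x n i ∈ Z.O)
    (hdist : ∀ n m, n ≠ m → ∃ i j, iter F x n i * iter F x m j ≠ iter F x n j * iter F x m i)
    {y : Fin N → Ω} (hy0 : y ≠ 0) (hy : ∀ i, IsAlgebraic K (y i)) {n₀ : ℕ}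
    (hcrit : ∀ n, n₀ ≤ n → aeval (iter F y n) (jd F) ≠ 0)
    {𝒰 : Ultrafilter ℕ} (h𝒰 : (𝒰 : Filter ℕ) ≤ atTop) {c : ℕ → Ω} {κ : ℝ} (hκ : 0 < κ)
    (h : App 𝒰 (fun n => (d : ℝ) ^ n) (fun n => c n • vec Ω (iter F x n)) y κ) : False := by
  classical
  have hd1 : 1 ≤ d := by omega
  have hdr : (2 : ℝ) ≤ d := by exact_mod_cast hd
  have hs : Tendsto (fun n : ℕ => (d : ℝ) ^ n) (𝒰 : Filter ℕ) atTop :=
    (tendsto_pow_atTop_atTop_of_one_lt (by linarith)).mono_left h𝒰
  obtain ⟨t, ht, hint⟩ := exists_intBy hd1 hF hnz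
  obtain ⟨q, c', hq0, hqs, hqa, happ⟩ := exists_chain hd1 hF ht hint h𝒰 hs x hy hκ h
  -- growth
  obtain ⟨C₁, hC₁, hg₁⟩ := exists_growth hd hF x (nabv K Ω)
  choose C₂ hC₂ hg₂ using fun l => exists_growth hd hF x (Z.abv l)
  set C : ℝ := C₁ + ∑ l, C₂ l with hC
  have hCl : ∀ l, C₂ l ≤ C := fun l => by
    have := Finset.single_le_sum (f := C₂) (fun l _ => hC₂ l) (Finset.mem_univ l)
    rw [hC]; linarith
  have hC0 : 0 ≤ ∑ l, C₂ l := Finset.sum_nonneg fun l _ => hC₂ l
  have hC1 : C₁ ≤ C := by rw [hC]; linarith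
  have hpow : ∀ n : ℕ, (0 : ℝ) ≤ (d : ℝ) ^ n := fun n => by positivity
  obtain ⟨A, hA⟩ := rate_le Z hd h𝒰 (x := fun n => iter F x n) hO (C := C) (by rw [hC]; linarith)
    (fun n i => (hg₁ n i).trans (Real.exp_le_exp.2 (mul_le_mul_of_nonneg_right hC1 (hpow n))))
    (fun n i l => (hg₂ l n i).trans
      (Real.exp_le_exp.2 (mul_le_mul_of_nonneg_right (hCl l) (hpow n)))) hdist
  have hqne : ∀ m, q m ≠ 0 := by
    intro m
    induction m with
    | zero => rw [hq0]; exact hy0
    | succ m ih =>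
      intro h0
      apply ih
      rw [← hqs m, h0]
      funext i
      show aeval (0 : Fin N → Ω) (F i) = 0
      have h1 := Pool.Agent.Helper36.aeval_smul_homogeneous (A := Ω) (hF i) 0 (fun _ => 0)
      have h2 : (fun _ : Fin N => (0 : Ω) * 0) = 0 := by
        funext j
        simp
      rw [h2, zero_pow (by omega), zero_mul] at h1
      exact h1
  have hr : ∀ m, κ / (t : ℝ) ^ crit F q m ≤ A / (d : ℝ) ^ m := fun m =>
    hA m (q m) (hqne m) (hqa m) _ (c' m) (happ m)
  have htr : (1 : ℝ) ≤ t := by exact_mod_cast ht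
  have hA0 : 0 < A := by
    have h1 := hr 0
    rw [pow_zero, div_one] at h1
    exact lt_of_lt_of_le (by positivity) h1
  have hr' : ∀ m, κ / A * (d : ℝ) ^ m ≤ (t : ℝ) ^ crit F q m := by
    intro m
    have h1 := hr m
    have h2 : (0 : ℝ) < (t : ℝ) ^ crit F q m := by positivity
    have h3 : (0 : ℝ) < (d : ℝ) ^ m := by positivity
    rw [div_le_div_iff₀ h2 h3] at h1
    rw [div_mul_eq_mul_div, div_le_iff₀ hA0]
    linarith
  have hlog : ∀ m : ℕ, (m : ℝ) * Real.log d + Real.log (κ / A) ≤ crit F q m * Real.log t := by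
    intro m
    have h1 := Real.log_le_log (by positivity) (hr' m)
    rw [Real.log_mul (by positivity) (by positivity), Real.log_pow, Real.log_pow] at h1
    linarith
  have hld : 0 < Real.log d := Real.log_pos (by linarith)
  have hlt : 0 < Real.log t := by
    rcases (Real.log_nonneg htr).lt_or_eq with h1 | h1
    · exact h1
    · exfalso
      obtain ⟨m, hm⟩ := exists_nat_gt (-Real.log (κ / A) / Real.log d)
      have h2 := hlog m
      rw [← h1, mul_zero] at h2
      rw [div_lt_iff₀ hld] at hm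
      linarith
  have hud : PosUD {j | aeval (q j) (jd F) = 0} := by
    refine posUD_of_crit (θ := Real.log d / Real.log t) (C := -Real.log (κ / A) / Real.log t)
      (by positivity) fun m => ?_
    have h1 := hlog m
    have h2 : Real.log d / Real.log t * m - -Real.log (κ / A) / Real.log t =
        ((m : ℝ) * Real.log d + Real.log (κ / A)) / Real.log t := by
      field_simp
      ring
    rw [h2, div_le_iff₀ hlt]
    exact h1
  obtain ⟨n, hn, hn0⟩ := exists_later F q hqs (jd F) hud n₀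
  rw [hq0] at hn0
  exact hcrit n hn hn0

end Pool.Agent.Helper65.TB
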