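import Pool.Agent.Helper65.TB.Main
import Pool.Agent.Helper30.TY.Low
import Pool.Agent.Helper36.Growth

/-!
# Project TB: the hitting theorem

A curve that contains infinitely many points of an orbit and the point `y`: if only finitely many
iterates of `y` are critical, then points of the orbit are congruent to `y` modulo places outside
any given finite set.
-/

set_option autoImplicit false

namespace Pool.Agent.Helper65.TB

open MvPolynomial Filter Topology Height Height.AdmissibleAbsValues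
open Pool.Agent.Helper36 (step iter)
open Pool.Agent.Helper29.TG
open Pool.Agent.Helper30.ZB (Hom R lf)

variable {ν : ℕ}

theorem cr_zero_of {K : Type} [Field K] {x x' y : Fin (ν + 1) → K} (hy : y ≠ 0)
    (h : cr y x = 0) (h' : cr y x' = 0) : cr x x' = 0 := by
  obtain ⟨p, hp⟩ := Function.ne_iff.1 hy
  rw [Pi.zero_apply] at hp
  have h1 : ∀ i, y p * x i = y i * x p := fun i => by
    have := congrFun h (p, i)
    simp only [cr, Pi.zero_apply, sub_eq_zero] at this
    exact this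
  have h2 : ∀ i, y p * x' i = y i * x' p := fun i => by
    have := congrFun h' (p, i)
    simp only [cr, Pi.zero_apply, sub_eq_zero] at this
    exact this
  funext q
  simp only [cr, Pi.zero_apply]
  have h3 : y p * (y p * (x q.1 * x' q.2 - x q.2 * x' q.1)) = 0 := by
    linear_combination (y p * x' q.2) * h1 q.1 + (y q.1 * x p) * h2 q.2 -
      (y p * x' q.1) * h1 q.2 - (y q.2 * x p) * h2 q.1
  exact (mul_eq_zero.1 ((mul_eq_zero.1 h3).resolve_left hp)).resolve_left hp

theorem hit_point {K : Type} [Field K] [NumberField K] {L : Type} [Field L] [Algebra K L]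
    [IsAlgClosed L] {d : ℕ} (hd : 2 ≤ d)
    {F : Fin (ν + 1) → MvPolynomial (Fin (ν + 1)) K} (hF : ∀ i, (F i).IsHomogeneous d)
    (hnz : ∀ x : Fin (ν + 1) → L, (∀ i, aeval x (F i) = 0) → x = 0)
    {x : Fin (ν + 1) → K} (hcr : ∀ n m, n ≠ m → cr (iter F x n) (iter F x m) ≠ 0)
    {𝒰 : Ultrafilter ℕ} (h𝒰 : (𝒰 : Filter ℕ) ≤ atTop)
    {J : Ideal (MvPolynomial (Fin (ν + 1)) K)} (hp : J.IsPrime) (hJ : Hom J) {δ c₀ : ℕ}
    (hδ : ∀ m, R J m ≤ δ * m + c₀)
    (hJ1 : ∀ g ∈ J, ∀ᶠ n in (𝒰 : Filter ℕ), eval (iter F x n) g = 0)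
    (hJ2 : ∀ g e, g.IsHomogeneous e → g ∉ J → ∀ᶠ n in (𝒰 : Filter ℕ), eval (iter F x n) g ≠ 0)
    {y : Fin (ν + 1) → K} (hy0 : y ≠ 0) (hyJ : ∀ g ∈ J, eval y g = 0) {n₀ : ℕ}
    (hcrit : ∀ n, n₀ ≤ n → eval (iter F y n) (Pool.Agent.Helper30.TKN.jf F) ≠ 0)
    {B : Set (AbsoluteValue K ℝ)} (hB : B.Finite) :
    ∀ᶠ n in (𝒰 : Filter ℕ), ∃ v ∈ nonarchAbsVal (K := K), v ∉ B ∧
      nm v (cr (iter F x n) y) < nm v (iter F x n) * nm v y := by
  classical
  have hx : ∀ n, iter F x n ≠ 0 := fun n => left_ne_zero (hcr n (n + 1) (by omega))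
  -- all equations of the curve
  have hJall : ∀ᶠ n in (𝒰 : Filter ℕ), ∀ g ∈ J, eval (iter F x n) g = 0 := by
    obtain ⟨S, hS⟩ := (isNoetherianRing_iff_ideal_fg _).1 inferInstance J
    have h1 : ∀ᶠ n in (𝒰 : Filter ℕ), ∀ g ∈ S, eval (iter F x n) g = 0 :=
      (Finset.eventually_all S).2 fun g hg => hJ1 g (by
        rw [← hS]
        exact Ideal.subset_span hg)
    filter_upwards [h1] with n hn g hg
    rw [← hS] at hg
    induction hg using Submodule.span_induction with
    | mem p hp => exact hn p hp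
    | zero => exact map_zero _
    | add p q _ _ hp hq => rw [map_add, hp, hq, add_zero]
    | smul a p _ hp => rw [smul_eq_mul, map_mul, hp, mul_zero]
  -- a linear form through `y`
  have hℓ : ∃ q, lf K (Pool.Agent.Helper30.TY.mf y q) ∉ J := by
    by_contra hcon
    push Not at hcon
    have h1 : ∀ᶠ n in (𝒰 : Filter ℕ), cr y (iter F x n) = 0 := by
      filter_upwards [hJall] with n hn
      funext q
      rw [← Pool.Agent.Helper30.TY.eval_mf]
      exact hn _ (hcon q)
    obtain ⟨n, hn⟩ := h1.exists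
    obtain ⟨m, hm, hnm⟩ := (h1.and (h𝒰 (eventually_gt_atTop n))).exists
    exact hcr n m (by omega) (cr_zero_of hy0 hn hm)
  obtain ⟨q, hq⟩ := hℓ
  obtain ⟨k, C, G, e, hGe, hGJ, hlow⟩ := Pool.Agent.Helper30.TY.exists_low_point hp hJ hδ hq hy0 hyJ
    (by
      rw [Pool.Agent.Helper30.TY.eval_mf]
      simp only [cr]
      ring)
  -- the finite set of places
  set B' : Set (AbsoluteValue K ℝ) := B ∪ {v | v ∈ archAbsVal (K := K)} with hB'
  have hB'f : B'.Finite := hB.union (finite_arch (K := K))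
  set ind : AbsoluteValue K ℝ → ℝ := fun v => if v ∈ B' then 1 else 0 with hind
  have hindFS : FS ind := FS.of_finite hB'f fun v _ hv => if_neg hv
  -- growth
  rcases Pool.Agent.Helper36.growth (L := L) hd F hF hnz (fun n => iter F x n) hx
    (fun n => Pool.Agent.Helper36.iter_succ F x n) with ⟨n, m, hnm, c, -, hc⟩ | ⟨m₀, hm₀⟩
  · exfalso
    refine hcr n m hnm.ne ?_
    funext q
    have h1 : ∀ a, iter F x m a = c * iter F x n a := fun a => congrFun hc a
    unfold cr
    rw [h1, h1, Pi.zero_apply]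
    ring
  have hdr : (2 : ℝ) ≤ d := by exact_mod_cast hd
  have hd0 : (0 : ℝ) < (d : ℝ) ^ m₀ := by positivity
  set ε : ℝ := 1 / (2 * (d : ℝ) ^ m₀ * (k * |ls ind| + 1)) with hε
  have hden : (0 : ℝ) < k * |ls ind| + 1 := by positivity
  have hε0 : 0 < ε := by positivity
  have hsmall : ∀ᶠ n in (𝒰 : Filter ℕ), ∀ v ∈ B', Mem v → ct v (iter F x n) y ≤ ε * d ^ n := by
    have h1 : ∀ v ∈ B', ∀ᶠ n in (𝒰 : Filter ℕ), Mem v → ct v (iter F x n) y ≤ ε * d ^ n := by
      intro v _
      by_cases hv : Mem v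
      · filter_upwards [h𝒰 (contact_small hd hF hnz hcr hy0 hcrit hv ε hε0)] with n hn _
        exact hn
      · exact Filter.Eventually.of_forall fun n h => absurd h hv
    exact (hB'f.eventually_all).2 h1
  have hbig : ∀ᶠ n in (𝒰 : Filter ℕ), C < (d : ℝ) ^ n / (2 * (d : ℝ) ^ m₀) := by
    have h1 : Tendsto (fun n : ℕ => (d : ℝ) ^ n / (2 * (d : ℝ) ^ m₀)) atTop atTop :=
      (tendsto_pow_atTop_atTop_of_one_lt (by linarith)).atTop_div_const (by positivity)
    exact h𝒰 (h1.eventually (eventually_gt_atTop C))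
  filter_upwards [hJall, hJ2 G e hGe hGJ, hsmall, hbig, h𝒰 (eventually_ge_atTop m₀)] with n h1 h2 h3 h4 h5
  by_contra hcon
  push Not at hcon
  obtain ⟨h6, h7⟩ := hlow (iter F x n) h1 h2
  have h8 : ls (fun v => ct v y (iter F x n)) ≤ ls (fun v => ε * d ^ n * ind v) := by
    refine ls_mono (FS_ct h6) (hindFS.mul_left _) fun v hv => ?_
    rw [← ct_comm]
    by_cases hvB : v ∈ B'
    · rw [hind]
      simp only [if_pos hvB, mul_one]
      exact h3 v hvB hv
    · have hvn : v ∈ nonarchAbsVal (K := K) := by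
        rcases hv with hv | hv
        · exact absurd (Or.inr hv) hvB
        · exact hv
      rw [hind]
      simp only [if_neg hvB, mul_zero]
      have h9 := hcon v hvn (fun h => hvB (Or.inl h))
      have h10 := nm_pos v (hx n)
      have h11 := nm_pos v hy0
      have h12 := Real.log_le_log (by positivity) h9
      rw [Real.log_mul h10.ne' h11.ne'] at h12
      rw [ct]
      linarith
  rw [ls_mul_left] at h8
  have h9 := hm₀ n h5
  have h10 : (d : ℝ) ^ (n - m₀) = (d : ℝ) ^ n / (d : ℝ) ^ m₀ := by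
    rw [eq_div_iff hd0.ne', ← pow_add, Nat.sub_add_cancel h5]
  have h11 : (k : ℝ) * ls (fun v => ct v y (iter F x n)) ≤ (d : ℝ) ^ n / (2 * (d : ℝ) ^ m₀) := by
    have h12 : (k : ℝ) * ls (fun v => ct v y (iter F x n)) ≤ k * (ε * d ^ n * |ls ind|) := by
      refine mul_le_mul_of_nonneg_left (h8.trans ?_) (Nat.cast_nonneg _)
      exact mul_le_mul_of_nonneg_left (le_abs_self _) (by positivity)
    refine h12.trans ?_
    rw [hε, le_div_iff₀ (by positivity)]
    have h13 : (k : ℝ) * (1 / (2 * (d : ℝ) ^ m₀ * (k * |ls ind| + 1)) * (d : ℝ) ^ n * |ls ind|) *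
        (2 * (d : ℝ) ^ m₀) = (d : ℝ) ^ n * (k * |ls ind| / (k * |ls ind| + 1)) := by
      field_simp
    rw [h13]
    have h14 : (k : ℝ) * |ls ind| / (k * |ls ind| + 1) ≤ 1 := by
      rw [div_le_one hden]
      linarith
    have h15 : (0 : ℝ) ≤ (d : ℝ) ^ n := by positivity
    calc (d : ℝ) ^ n * (k * |ls ind| / (k * |ls ind| + 1)) ≤ (d : ℝ) ^ n * 1 :=
          mul_le_mul_of_nonneg_left h14 h15
      _ = (d : ℝ) ^ n := mul_one _
  have h12 : (d : ℝ) ^ n / (d : ℝ) ^ m₀ =
      (d : ℝ) ^ n / (2 * (d : ℝ) ^ m₀) + (d : ℝ) ^ n / (2 * (d : ℝ) ^ m₀) := by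
    field_simp
    ring
  linarith

end Pool.Agent.Helper65.TB
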