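import Pool.Agent.Helper33.RP.ExistsPD
import Pool.Agent.Helper29.TG.Defs

/-!
# Project TB: the Subspace theorem at a given place
-/

set_option autoImplicit false

namespace Pool.Agent.Helper65.TB

open Pool.Agent.Helper65.RP
open Pool.Agent.Helper29.TG
open Pool.Agent.Helper85.Sub Pool.Agent.Helper85.RC Pool.Agent.Helper10.Sub NumberField
open Pool.Agent.Helper33.RP
open Height.AdmissibleAbsValues

/-- For every absolute value of the family of the heights of a number field and every finite set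
there is a structure `PD` at this absolute value whose ring contains the finite set. -/
theorem exists_pd_at {K : Type} [Field K] [NumberField K] {v : AbsoluteValue K ℝ}
    (hv : Mem v) (E : Finset K) :
    ∃ (Ω : Type) (_ : NormedField Ω) (_ : IsAlgClosed Ω) (_ : CharZero Ω) (_ : Algebra K Ω)
      (Λ : Type) (_ : Fintype Λ) (Z : PD K Ω Λ) (r : ℕ), 1 ≤ r ∧ (∀ x ∈ E, x ∈ Z.O) ∧
        ∀ x, v x = ‖algebraMap K Ω x‖ ^ r := by
  classical
  choose q' hq' using fun v : FinitePlace K => exists_prime_below v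
  have hfin : ∀ x : K, {v : FinitePlace K | 1 < v x}.Finite := by
    intro x
    by_cases hx : x = 0
    · subst hx
      refine Set.finite_empty.subset ?_
      intro v hv
      simp only [Set.mem_ofPred_eq, map_zero] at hv
      linarith
    · exact (FinitePlace.hasFiniteMulSupport hx).subset fun v hv => (ne_of_gt hv)
  let T : Finset Nat.Primes := E.biUnion fun x => (hfin x).toFinset.image q'
  have hT : ∀ T' : Finset Nat.Primes, T ⊆ T' → ∀ x ∈ E, x ∈ OP K (pprod (pr T')) := by
    intro T' hTT x hx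
    refine mem_OP_of_le (hfin x).toFinset _ ?_ x ?_
    · intro v hv
      refine pprod_mem T' (q' v) (hTT ?_) v (hq' v)
      exact Finset.mem_biUnion.2 ⟨x, hx, Finset.mem_image_of_mem _ hv⟩
    · intro v hv
      rw [Set.Finite.mem_toFinset, Set.mem_ofPred_eq, not_lt] at hv
      exact hv
  rcases hv with hv | hv
  · have h1 : IsInfinitePlace v := mem_multisetInfinitePlace.1 hv
    obtain ⟨φ, hφ⟩ := h1
    obtain ⟨Ω, i1, i2, i3, i4, Λ, i5, Z, ι, hZ, hn, -⟩ := case_inl T φ
    refine ⟨Ω, i1, i2, i3, i4, Λ, i5, Z, 1, le_rfl, ?_, ?_⟩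
    · intro x hx
      rw [hZ]
      exact hT T subset_rfl x hx
    · intro x
      rw [pow_one, hn x, ← hφ]
      rfl
  · have hv' : IsFinitePlace v := hv
    set w : FinitePlace K := ⟨v, hv'⟩ with hw
    set P := w.maximalIdeal with hPdef
    have hwP : FinitePlace.mk P = w := FinitePlace.mk_maximalIdeal w
    obtain ⟨p, hp, hpP⟩ := exists_prime_mem P
    have hpf : Fact p.Prime := ⟨hp⟩
    obtain ⟨n, hn0, ⟨σ₀, hσ₀⟩, -, hall⟩ := card_fiber (p := p) P hpP
    have hvσ : ∀ x : K, v x = ‖σ₀ x‖ ^ n := by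
      intro x
      have h1 := hall σ₀ hσ₀ x
      rw [hwP] at h1
      exact h1
    set T' : Finset Nat.Primes := insert ⟨p, hp⟩ T with hT'
    have ht₀ : (⟨p, hp⟩ : Nat.Primes) ∈ T' := Finset.mem_insert_self _ _
    obtain ⟨Ω, i1, i2, i3, i4, Λ, i5, Z, ι, hZ, hn, -⟩ :=
      case_inr (K := K) T' ⟨⟨p, hp⟩, ht₀⟩ (liftEquiv.symm σ₀)
    refine ⟨Ω, i1, i2, i3, i4, Λ, i5, Z, n, Nat.one_le_iff_ne_zero.2 hn0, ?_, ?_⟩
    · intro x hx
      rw [hZ]
      exact hT T' (Finset.subset_insert _ _) x hx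
    · intro x
      rw [hvσ x, hn x]
      congr 1

end Pool.Agent.Helper65.TB
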