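import Pool.Agent.Helper65.TB.Fin
import Pool.Agent.Helper65.TB.Place
import Pool.Agent.Helper29.TG.Contact
import Pool.Agent.Helper30.TKN.Defs

/-!
# Project TB: the contact of an orbit with an algebraic point at a fixed place
-/

set_option autoImplicit false

namespace Pool.Agent.Helper65.TB

open MvPolynomial Filter Topology Height Height.AdmissibleAbsValues
open Pool.Agent.Helper36 (step iter)
open Pool.Agent.Helper29.TG

section transfer
variable {K L Ω : Type} [Field K] [Field L] [Algebra K L] [IsAlgClosed L] [Field Ω] [Algebra K Ω]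
  {N : ℕ}

/-- Forms without common zero over one algebraically closed field have none over any field. -/
theorem no_zero {d : ℕ} {F : Fin N → MvPolynomial (Fin N) K} (hF : ∀ i, (F i).IsHomogeneous d)
    (hnz : ∀ x : Fin N → L, (∀ i, aeval x (F i) = 0) → x = 0)
    (x : Fin N → Ω) (hx : ∀ i, aeval x (F i) = 0) : x = 0 := by
  have hreg : Pool.Agent.Helper65.RP.Regular L d F := by
    refine ⟨fun i => (hF i).totalDegree_le, fun y hy => hnz y fun i => ?_⟩
    have h1 := hy i
    rwa [homogeneousComponent_of_mem (hF i), if_pos rfl] at h1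
  obtain ⟨e, he⟩ := Pool.Agent.Helper12.RP.exists_pow_mem hreg
  funext j
  have h2 : ∀ p ∈ Ideal.span (Set.range fun i => homogeneousComponent d (F i)),
      aeval x p = 0 := by
    intro p hp
    induction hp using Submodule.span_induction with
    | mem p hp =>
      obtain ⟨i, rfl⟩ := hp
      show aeval x (homogeneousComponent d (F i)) = 0
      rw [homogeneousComponent_of_mem (hF i), if_pos rfl]
      exact hx i
    | zero => exact map_zero _
    | add p q _ _ hp hq => rw [map_add, hp, hq, add_zero]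
    | smul a p _ hp => rw [smul_eq_mul, map_mul, hp, mul_zero]
  have h3 := h2 _ (he j)
  rw [map_pow, aeval_X] at h3
  exact pow_eq_zero_iff (n := e + 1) (Nat.succ_ne_zero _) |>.1 (by rw [pow_succ, h3, zero_mul])

end transfer

section alg
variable {K Ω : Type} [Field K] [NormedField Ω] [Algebra K Ω] {N : ℕ}

theorem iter_vec (F : Fin N → MvPolynomial (Fin N) K) (x : Fin N → K) (n : ℕ) :
    iter F (vec Ω x) n = vec Ω (iter F x n) := by
  have h := Pool.Agent.Helper36.iter_map F (Algebra.ofId K Ω) x n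
  exact h

theorem aeval_vec (x : Fin N → K) (p : MvPolynomial (Fin N) K) :
    aeval (vec Ω x) p = algebraMap K Ω (eval x p) := by
  have h := MvPolynomial.eval₂_comp_left (algebraMap K Ω) (RingHom.id K) x p
  rw [RingHom.comp_id] at h
  exact h.symm

end alg

variable {ν : ℕ}

/-- The points approach `y` in `Ω`. -/
theorem app_of_ct {K Ω : Type} [Field K] [NormedField Ω] [Algebra K Ω] {v : AbsoluteValue K ℝ}
    {r : ℕ} (hr : 1 ≤ r) (hvr : ∀ x, v x = ‖algebraMap K Ω x‖ ^ r)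
    {x : ℕ → Fin (ν + 1) → K} (hx : ∀ n, x n ≠ 0) {y : Fin (ν + 1) → K} (hy : y ≠ 0)
    {𝒰 : Ultrafilter ℕ} {s : ℕ → ℝ} (hs : Tendsto s (𝒰 : Filter ℕ) atTop) {ε : ℝ} (hε : 0 < ε)
    (h : ∀ᶠ n in (𝒰 : Filter ℕ), ε * s n < ct v (x n) y) :
    ∃ c : ℕ → Ω, App 𝒰 s (fun n => c n • vec Ω (x n)) (vec Ω y) (ε / r) := by
  obtain ⟨i₀, hi₀⟩ := Function.ne_iff.1 hy
  rw [Pi.zero_apply] at hi₀
  have hvi₀ : 0 < v (y i₀) := v.pos hi₀
  set Y := nm v y with hY
  have hYpos : 0 < Y := nm_pos v hy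
  have hcr : ∀ᶠ n in (𝒰 : Filter ℕ), nm v (cr (x n) y) ≤
      nm v (x n) * Y * Real.exp (-(ε * s n)) := by
    filter_upwards [h] with n hn
    have hX := nm_pos v (hx n)
    rcases (nm_nonneg v (cr (x n) y)).eq_or_lt with h0 | h0
    · rw [← h0]
      positivity
    · rw [ct] at hn
      have h1 : Real.log (nm v (cr (x n) y)) < Real.log (nm v (x n) * Y * Real.exp (-(ε * s n))) := by
        rw [Real.log_mul (by positivity) (Real.exp_ne_zero _), Real.log_exp,
          Real.log_mul hX.ne' hYpos.ne']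
        linarith
      exact ((Real.log_lt_log_iff h0 (by positivity)).1 h1).le
  -- the ratio is bounded
  have hsmall : ∀ᶠ n in (𝒰 : Filter ℕ), Y * Real.exp (-(ε * s n)) ≤ v (y i₀) / 2 := by
    have h1 : Tendsto (fun n => Y * Real.exp (-(ε * s n))) (𝒰 : Filter ℕ) (𝓝 (Y * 0)) := by
      refine Tendsto.const_mul _ ?_
      refine Real.tendsto_exp_neg_atTop_nhds_zero.comp ?_
      exact hs.const_mul_atTop hε
    rw [mul_zero] at h1
    exact (h1.eventually (ge_mem_nhds (by positivity : (0 : ℝ) < v (y i₀) / 2)))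
  have hlow : ∀ᶠ n in (𝒰 : Filter ℕ), nm v (x n) * (v (y i₀) / 2) ≤ v (x n i₀) * Y := by
    filter_upwards [hcr, hsmall] with n h1 h2
    obtain ⟨j, -, hj⟩ := exists_nm_eq v (hx n)
    have h3 : v (x n j * y i₀ - x n i₀ * y j) ≤ nm v (cr (x n) y) :=
      le_nm v (cr (x n) y) (j, i₀)
    have h4 : v (x n j * y i₀) - v (x n i₀ * y j) ≤ v (x n j * y i₀ - x n i₀ * y j) :=
      v.le_sub _ _
    rw [map_mul, map_mul, ← hj] at h4
    have h5 : v (x n i₀) * v (y j) ≤ v (x n i₀) * Y :=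
      mul_le_mul_of_nonneg_left (le_nm v y j) (v.nonneg _)
    have h6 : nm v (x n) * Y * Real.exp (-(ε * s n)) ≤ nm v (x n) * (v (y i₀) / 2) := by
      rw [mul_assoc]
      exact mul_le_mul_of_nonneg_left h2 (nm_nonneg v _)
    linarith
  set C₀ : ℝ := max 1 (Y * Y * (2 / v (y i₀))) with hC₀
  have hC₀1 : 1 ≤ C₀ := le_max_left _ _
  refine ⟨fun n => algebraMap K Ω (y i₀ / x n i₀), C₀, ?_⟩
  filter_upwards [hcr, hlow] with n h1 h2
  have hX := nm_pos v (hx n)
  have hxi : 0 < v (x n i₀) := by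
    by_contra h0
    have h3 : v (x n i₀) = 0 := le_antisymm (not_lt.1 h0) (v.nonneg _)
    rw [h3, zero_mul] at h2
    have : 0 < nm v (x n) * (v (y i₀) / 2) := by positivity
    linarith
  have hxi' : x n i₀ ≠ 0 := v.pos_iff.1 hxi
  rw [pi_norm_le_iff_of_nonneg (by positivity)]
  intro j
  have h3 : (algebraMap K Ω (y i₀ / x n i₀) • vec Ω (x n) - vec Ω y) j =
      algebraMap K Ω ((x n j * y i₀ - x n i₀ * y j) / x n i₀) := by
    simp only [Pi.sub_apply, Pi.smul_apply, smul_eq_mul, vec]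
    rw [← map_mul, ← map_sub]
    congr 1
    field_simp
  rw [h3]
  have h4 : v ((x n j * y i₀ - x n i₀ * y j) / x n i₀) ≤ C₀ * Real.exp (-(ε * s n)) := by
    rw [map_div₀, div_le_iff₀ hxi]
    have h5 : v (x n j * y i₀ - x n i₀ * y j) ≤ nm v (cr (x n) y) :=
      le_nm v (cr (x n) y) (j, i₀)
    refine h5.trans (h1.trans ?_)
    have h6 : nm v (x n) ≤ v (x n i₀) * Y * (2 / v (y i₀)) := by
      rw [mul_div_assoc', le_div_iff₀ hvi₀]
      linarith
    calc nm v (x n) * Y * Real.exp (-(ε * s n))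
        ≤ (v (x n i₀) * Y * (2 / v (y i₀))) * Y * Real.exp (-(ε * s n)) := by
          refine mul_le_mul_of_nonneg_right ?_ (Real.exp_nonneg _)
          exact mul_le_mul_of_nonneg_right h6 hYpos.le
      _ = (Y * Y * (2 / v (y i₀))) * (Real.exp (-(ε * s n)) * v (x n i₀)) := by ring
      _ ≤ C₀ * (Real.exp (-(ε * s n)) * v (x n i₀)) := by
          refine mul_le_mul_of_nonneg_right (le_max_right _ _) (by positivity)
      _ = C₀ * Real.exp (-(ε * s n)) * v (x n i₀) := by ring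
  rw [hvr] at h4
  have hr0 : r ≠ 0 := by omega
  have hrr : (0 : ℝ) < r := by exact_mod_cast (by omega : 0 < r)
  have h7 : (C₀ * Real.exp (-(ε / r) * s n)) ^ r = C₀ ^ r * Real.exp (-(ε * s n)) := by
    rw [mul_pow, ← Real.exp_nat_mul]
    congr 2
    field_simp
  have h8 : C₀ * Real.exp (-(ε * s n)) ≤ (C₀ * Real.exp (-(ε / r) * s n)) ^ r := by
    rw [h7]
    refine mul_le_mul_of_nonneg_right ?_ (Real.exp_nonneg _)
    exact le_self_pow₀ hC₀1 hr0
  exact (pow_le_pow_iff_left₀ (norm_nonneg _) (by positivity) hr0).1 (h4.trans h8)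

/-- **Theorem B.** At every fixed place the contact of the orbit of `x` with a point `y` which has
only finitely many critical iterates is `o(d ^ n)`. -/
theorem contact_small {K : Type} [Field K] [NumberField K] {L : Type} [Field L] [Algebra K L]
    [IsAlgClosed L] {d : ℕ} (hd : 2 ≤ d)
    {F : Fin (ν + 1) → MvPolynomial (Fin (ν + 1)) K} (hF : ∀ i, (F i).IsHomogeneous d)
    (hnz : ∀ x : Fin (ν + 1) → L, (∀ i, aeval x (F i) = 0) → x = 0)
    {x : Fin (ν + 1) → K} (hcr : ∀ n m, n ≠ m → cr (iter F x n) (iter F x m) ≠ 0)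
    {y : Fin (ν + 1) → K} (hy0 : y ≠ 0) {n₀ : ℕ}
    (hcrit : ∀ n, n₀ ≤ n → eval (iter F y n) (Pool.Agent.Helper30.TKN.jf F) ≠ 0)
    {v : AbsoluteValue K ℝ} (hv : Mem v) (ε : ℝ) (hε : 0 < ε) :
    ∀ᶠ n in atTop, ct v (iter F x n) y ≤ ε * d ^ n := by
  classical
  by_contra hcon
  rw [Filter.not_eventually] at hcon
  -- an ultrafilter
  have hne : (atTop ⊓ 𝓟 {n | ε * (d : ℝ) ^ n < ct v (iter F x n) y} : Filter ℕ).NeBot := by
    rw [← Filter.frequently_mem_iff_neBot]
    exact hcon.mono fun n hn => not_le.1 hn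
  set 𝒰 : Ultrafilter ℕ := @Ultrafilter.of ℕ _ hne with h𝒰def
  have h𝒰le : (𝒰 : Filter ℕ) ≤ atTop ⊓ 𝓟 {n | ε * (d : ℝ) ^ n < ct v (iter F x n) y} :=
    @Ultrafilter.of_le ℕ _ hne
  have h𝒰 : (𝒰 : Filter ℕ) ≤ atTop := h𝒰le.trans inf_le_left
  have hmem : ∀ᶠ n in (𝒰 : Filter ℕ), ε * (d : ℝ) ^ n < ct v (iter F x n) y := by
    have h1 : {n | ε * (d : ℝ) ^ n < ct v (iter F x n) y} ∈ (𝒰 : Filter ℕ) :=
      (h𝒰le.trans inf_le_right) (mem_principal_self _)
    exact h1
  -- the place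
  let E : Finset K := (Finset.univ.biUnion fun i => (F i).support.image fun m => (F i).coeff m) ∪
    insert 0 (Finset.univ.image x)
  obtain ⟨Ω, i1, i2, i3, i4, Λ, i5, Z, r, hr, hE, hvr⟩ := exists_pd_at hv E
  have hFO : ∀ i m, (F i).coeff m ∈ Z.O := by
    intro i m
    by_cases hm : (F i).coeff m = 0
    · rw [hm]
      exact Z.O.zero_mem
    · refine hE _ (Finset.mem_union_left _ (Finset.mem_biUnion.2 ⟨i, Finset.mem_univ _, ?_⟩))
      exact Finset.mem_image_of_mem _ (mem_support_iff.2 hm)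
  have hxO : ∀ i, x i ∈ Z.O := fun i =>
    hE _ (Finset.mem_union_right _ (Finset.mem_insert_of_mem
      (Finset.mem_image_of_mem _ (Finset.mem_univ _))))
  have hdr : (2 : ℝ) ≤ d := by exact_mod_cast hd
  have hs : Tendsto (fun n : ℕ => (d : ℝ) ^ n) (𝒰 : Filter ℕ) atTop :=
    (tendsto_pow_atTop_atTop_of_one_lt (by linarith)).mono_left h𝒰
  have hx : ∀ n, iter F x n ≠ 0 := fun n => left_ne_zero (hcr n (n + 1) (by omega))
  obtain ⟨c, hc⟩ := app_of_ct (Ω := Ω) hr hvr hx hy0 hs hε hmem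
  refine no_rate Z hd hF (no_zero hF hnz) (iter_mem hFO hxO) ?_ (y := vec Ω y) ?_ ?_ (n₀ := n₀)
    ?_ h𝒰 (κ := ε / r) ?_ hc
  · intro n m hnm
    obtain ⟨q, hq⟩ := Function.ne_iff.1 (hcr n m hnm)
    refine ⟨q.1, q.2, fun h0 => hq ?_⟩
    show iter F x n q.1 * iter F x m q.2 - iter F x n q.2 * iter F x m q.1 = 0
    rw [h0, sub_self]
  · intro h0
    apply hy0
    funext i
    have h1 := congrFun h0 i
    exact (map_eq_zero (algebraMap K Ω)).1 h1
  · intro i
    exact isAlgebraic_algebraMap _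
  · intro n hn
    rw [iter_vec, aeval_vec, Ne, map_eq_zero]
    exact hcrit n hn
  · have : (0 : ℝ) < r := by exact_mod_cast (by omega : 0 < r)
    positivity

end Pool.Agent.Helper65.TB
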