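import Pool.Agent.Helper65.TB.Defs

/-!
# Project TB: a weak form of Roth's theorem, with an exponent independent of the algebraic number
-/

set_option autoImplicit false

namespace Pool.Agent.Helper65.TB

open Pool.Agent.Helper65.RP

variable {K Ω : Type} [Field K] [NormedField Ω] [Algebra K Ω] {Λ : Type} [Fintype Λ]

/-- Two vectors of a proper subspace of the plane are proportional. -/
theorem roth_prop (W : Submodule K (Fin 2 → K)) (hW : W ≠ ⊤) {y z : Fin 2 → K} (hy : y ∈ W)
    (hz : z ∈ W) : y 1 * z 0 = z 1 * y 0 := by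
  by_contra hne
  apply hW
  rw [eq_top_iff]
  rintro x -
  have hD : y 1 * z 0 - z 1 * y 0 ≠ 0 := sub_ne_zero.2 hne
  have : x = ((x 1 * z 0 - x 0 * z 1) / (y 1 * z 0 - z 1 * y 0)) • y +
      ((x 0 * y 1 - x 1 * y 0) / (y 1 * z 0 - z 1 * y 0)) • z := by
    funext i
    fin_cases i
    · simp only [Fin.zero_eta, Pi.add_apply, Pi.smul_apply, smul_eq_mul]
      rw [div_mul_eq_mul_div, div_mul_eq_mul_div, ← add_div, eq_div_iff hD]
      ring
    · simp only [Fin.mk_one, Pi.add_apply, Pi.smul_apply, smul_eq_mul]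
      rw [div_mul_eq_mul_div, div_mul_eq_mul_div, ← add_div, eq_div_iff hD]
      ring
  rw [this]
  exact W.add_mem (W.smul_mem _ hy) (W.smul_mem _ hz)

theorem roth_line (α : Ω) (W : Submodule K (Fin 2 → K)) (hW : W ≠ ⊤) : ∃ C : ℝ, 0 ≤ C ∧
    ∀ y ∈ W, y 0 ≠ 0 → algebraMap K Ω (y 1) ≠ α * algebraMap K Ω (y 0) →
      Real.exp (-C) * ‖algebraMap K Ω (y 0)‖ ≤
        ‖algebraMap K Ω (y 1) - α * algebraMap K Ω (y 0)‖ := by
  by_cases h : ∃ z ∈ W, z 0 ≠ 0 ∧ algebraMap K Ω (z 1) ≠ α * algebraMap K Ω (z 0)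
  · obtain ⟨z, hz, hz0, hz1⟩ := h
    have hp1 : 0 < ‖algebraMap K Ω (z 1) - α * algebraMap K Ω (z 0)‖ :=
      norm_pos_iff.2 (sub_ne_zero.2 hz1)
    have hp0 : 0 < ‖algebraMap K Ω (z 0)‖ := norm_pos_iff.2 (by simpa using hz0)
    set r : ℝ := ‖algebraMap K Ω (z 1) - α * algebraMap K Ω (z 0)‖ / ‖algebraMap K Ω (z 0)‖
      with hr
    have hr0 : 0 < r := div_pos hp1 hp0
    refine ⟨max 0 (-Real.log r), le_max_left _ _, fun y hy _ _ => ?_⟩
    have h1 : y 1 * z 0 = z 1 * y 0 := roth_prop W hW hy hz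
    have h2 : ‖algebraMap K Ω (y 1) - α * algebraMap K Ω (y 0)‖ * ‖algebraMap K Ω (z 0)‖ =
        ‖algebraMap K Ω (y 0)‖ * ‖algebraMap K Ω (z 1) - α * algebraMap K Ω (z 0)‖ := by
      rw [← norm_mul, ← norm_mul]
      congr 1
      have h3 := congrArg (algebraMap K Ω) h1
      rw [map_mul, map_mul] at h3
      linear_combination h3
    have h4 : ‖algebraMap K Ω (y 1) - α * algebraMap K Ω (y 0)‖ = r * ‖algebraMap K Ω (y 0)‖ := by
      rw [hr, div_mul_eq_mul_div, eq_div_iff hp0.ne', h2]
      ring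
    rw [h4]
    refine mul_le_mul_of_nonneg_right ?_ (norm_nonneg _)
    calc Real.exp (-max 0 (-Real.log r)) ≤ Real.exp (Real.log r) := by
          apply Real.exp_le_exp.2
          linarith [le_max_right 0 (-Real.log r)]
      _ = r := Real.exp_log hr0
  · refine ⟨0, le_rfl, fun y hy h0 h1 => ?_⟩
    exact absurd ⟨y, hy, h0, h1⟩ h

theorem roth (Z : PD K Ω Λ) : ∃ A : ℝ, 0 < A ∧ ∀ α : Ω, IsAlgebraic K α → ∃ C : ℝ,
    ∀ (a b : K) (H : ℝ), a ∈ Z.O → b ∈ Z.O → b ≠ 0 → 0 ≤ H →
      ‖algebraMap K Ω a‖ ≤ Real.exp H → ‖algebraMap K Ω b‖ ≤ Real.exp H →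
      (∀ l, Z.abv l a ≤ Real.exp H) → (∀ l, Z.abv l b ≤ Real.exp H) →
      algebraMap K Ω a ≠ α * algebraMap K Ω b →
      Real.exp (-(A * H) - C) ≤ ‖algebraMap K Ω a - α * algebraMap K Ω b‖ := by
  classical
  set L : ℝ := (Fintype.card Λ : ℝ) with hL
  have hL0 : 0 ≤ L := Nat.cast_nonneg _
  have hn1 : (1 : ℝ) ≤ (Z.n : ℝ) := by exact_mod_cast Z.hn
  refine ⟨2 * L + 2, by positivity, fun α hα => ?_⟩
  obtain ⟨𝒲, hW, hsub⟩ := Z.sub 2 !![1, 0; -α, 1] le_rfl (by
    intro i j
    fin_cases i <;> fin_cases j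
    · simpa using isAlgebraic_one
    · simpa using isAlgebraic_zero
    · simpa using hα.neg
    · simpa using isAlgebraic_one) (by simp [Matrix.det_fin_two]) 1 (2 * L + 2) one_pos
  choose! C hC0 hC using fun (W : Submodule K (Fin 2 → K)) (hWm : W ∈ 𝒲) =>
    roth_line α W (hW W hWm)
  refine ⟨∑ W ∈ 𝒲, C W, fun a b H ha hb hb0 hH h1 h2 h3 h4 h5 => ?_⟩
  have hCs : 0 ≤ ∑ W ∈ 𝒲, C W := Finset.sum_nonneg hC0
  by_cases hsm : ‖algebraMap K Ω a - α * algebraMap K Ω b‖ ≤ Real.exp (-((2 * L + 2) * H))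
  · obtain ⟨W, hWm, hy⟩ := hsub (Real.exp H) ![Real.exp H, Real.exp (-((2 * L + 2) * H))]
      (fun _ => Real.exp H) ![b, a] (Real.one_le_exp hH)
      (by
        intro i
        fin_cases i
        · simpa using hb
        · simpa using ha)
      (by
        intro i
        rw [← Real.exp_mul, ← Real.exp_mul]
        fin_cases i
        · simp only [Fin.zero_eta, Matrix.cons_val_zero, Real.exp_le_exp]
          constructor <;> nlinarith
        · simp only [Fin.mk_one, Matrix.cons_val_one, Matrix.cons_val_fin_one, Real.exp_le_exp]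
          constructor <;> nlinarith)
      (by
        intro l
        rw [← Real.exp_mul, ← Real.exp_mul, Real.exp_le_exp, Real.exp_le_exp]
        constructor <;> nlinarith)
      (by
        intro i
        fin_cases i
        · simpa [Fin.sum_univ_two] using h2
        · have : ∑ j : Fin 2, (!![1, 0; -α, 1] : Matrix (Fin 2) (Fin 2) Ω) 1 j *
              algebraMap K Ω ((![b, a] : Fin 2 → K) j) =
              algebraMap K Ω a - α * algebraMap K Ω b := by
            simp [Fin.sum_univ_two]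
            ring
          simp only [Fin.mk_one, this]
          simpa using hsm)
      (by
        intro l i
        fin_cases i
        · simpa using h4 l
        · simpa using h3 l)
      (by
        rw [Fin.prod_univ_two, Finset.prod_const, Finset.card_univ]
        simp only [Matrix.cons_val_zero, Matrix.cons_val_one, Matrix.cons_val_fin_one]
        rw [← Real.exp_add, ← Real.exp_nat_mul, ← Real.exp_nat_mul, ← Real.exp_nat_mul,
          ← Real.exp_add, ← Real.exp_mul, Real.exp_le_exp]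
        rw [← hL]
        push_cast
        have : 0 ≤ ((Z.n : ℝ) - 1) * ((2 * L + 1) * H) :=
          mul_nonneg (by linarith) (by positivity)
        nlinarith)
    have key := hC W hWm ![b, a] hy (by simpa using hb0) (by simpa using h5)
    simp only [Matrix.cons_val_zero, Matrix.cons_val_one, Matrix.cons_val_fin_one] at key
    have hCW : C W ≤ ∑ W ∈ 𝒲, C W := Finset.single_le_sum (f := C) hC0 hWm
    have hbb : Real.exp (-(L * H)) ≤ ‖algebraMap K Ω b‖ := by
      by_contra hlt
      push Not at hlt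
      have h6 := Z.one_le b hb hb0
      have h7 : ∏ l, Z.abv l b ≤ Real.exp (L * H) := by
        calc ∏ l, Z.abv l b ≤ ∏ _l : Λ, Real.exp H :=
              Finset.prod_le_prod (fun l _ => (Z.abv l).nonneg b) fun l _ => h4 l
          _ = Real.exp (L * H) := by
              rw [Finset.prod_const, Finset.card_univ, ← Real.exp_nat_mul]
      have h8 : ‖algebraMap K Ω b‖ ^ Z.n < Real.exp (-(L * H)) := by
        calc ‖algebraMap K Ω b‖ ^ Z.n ≤ ‖algebraMap K Ω b‖ ^ 1 := by
              refine pow_le_pow_of_le_one (norm_nonneg _) ?_ Z.hn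
              refine hlt.le.trans ?_
              rw [Real.exp_le_one_iff]
              have := mul_nonneg hL0 hH
              linarith
          _ = ‖algebraMap K Ω b‖ := pow_one _
          _ < Real.exp (-(L * H)) := hlt
      have h9 : ‖algebraMap K Ω b‖ ^ Z.n * ∏ l, Z.abv l b < 1 := by
        calc ‖algebraMap K Ω b‖ ^ Z.n * ∏ l, Z.abv l b
            ≤ ‖algebraMap K Ω b‖ ^ Z.n * Real.exp (L * H) :=
              mul_le_mul_of_nonneg_left h7 (by positivity)
          _ < Real.exp (-(L * H)) * Real.exp (L * H) :=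
              mul_lt_mul_of_pos_right h8 (Real.exp_pos _)
          _ = 1 := by
              rw [← Real.exp_add, neg_add_cancel, Real.exp_zero]
      linarith
    calc Real.exp (-((2 * L + 2) * H) - ∑ W ∈ 𝒲, C W)
        ≤ Real.exp (-C W) * Real.exp (-(L * H)) := by
          rw [← Real.exp_add, Real.exp_le_exp]
          nlinarith
      _ ≤ Real.exp (-C W) * ‖algebraMap K Ω b‖ :=
          mul_le_mul_of_nonneg_left hbb (Real.exp_pos _).le
      _ ≤ _ := key
  · refine le_trans (Real.exp_le_exp.2 ?_) (not_le.1 hsm).le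
    linarith

end Pool.Agent.Helper65.TB
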