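import Pool.Agent.Helper65.TB.Defs

/-!
# Project TB: limits of preimages
-/

set_option autoImplicit false

namespace Pool.Agent.Helper65.TB

open MvPolynomial Filter Topology
open Pool.Agent.Helper36 (step iter)

section aux

variable {K Ω : Type} [Field K] [NormedField Ω] [Algebra K Ω] {N : ℕ}

/-- Polynomials are Lipschitz along a convergent sequence of points. -/
theorem stepA_lip {l : Filter ℕ} {w : ℕ → Fin N → Ω} {q : Fin N → Ω}
    (hw : Tendsto w l (𝓝 q)) (p : MvPolynomial (Fin N) K) :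
    ∃ C : ℝ, 0 ≤ C ∧ ∀ᶠ n in l, ‖aeval (w n) p - aeval q p‖ ≤ C * ‖w n - q‖ := by
  have h1 : ∀ᶠ n in l, ‖w n - q‖ ≤ 1 := by
    have := (tendsto_iff_norm_sub_tendsto_zero.mp hw).eventually (Iio_mem_nhds one_pos)
    filter_upwards [this] with n hn using (Set.mem_Iio.mp hn).le
  induction p using MvPolynomial.induction_on with
  | C a =>
    refine ⟨0, le_rfl, Eventually.of_forall fun n => ?_⟩
    simp
  | add p p' hp hp' =>
    obtain ⟨C, hC, h⟩ := hp
    obtain ⟨C', hC', h'⟩ := hp'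
    refine ⟨C + C', by positivity, ?_⟩
    filter_upwards [h, h'] with n hn hn'
    rw [map_add, map_add, add_sub_add_comm, add_mul]
    exact (norm_add_le _ _).trans (add_le_add hn hn')
  | mul_X p i hp =>
    obtain ⟨C, hC, h⟩ := hp
    refine ⟨C * (‖q i‖ + 1) + ‖aeval q p‖, by positivity, ?_⟩
    filter_upwards [h, h1] with n hn hn1
    have e : aeval (w n) (p * X i) - aeval q (p * X i) =
        (aeval (w n) p - aeval q p) * w n i + aeval q p * (w n i - q i) := by
      rw [map_mul, map_mul, aeval_X, aeval_X]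
      ring
    have e1 : ‖w n i - q i‖ ≤ ‖w n - q‖ := norm_le_pi_norm (w n - q) i
    have e2 : ‖w n i‖ ≤ ‖q i‖ + 1 := by
      have : w n i = q i + (w n i - q i) := by ring
      rw [this]
      exact (norm_add_le _ _).trans (by linarith)
    rw [e]
    refine (norm_add_le _ _).trans ?_
    rw [norm_mul, norm_mul, add_mul]
    have e3 : ‖aeval (w n) p - aeval q p‖ * ‖w n i‖ ≤ (C * ‖w n - q‖) * (‖q i‖ + 1) :=
      mul_le_mul hn e2 (norm_nonneg _) (by positivity)
    have e4 : ‖aeval q p‖ * ‖w n i - q i‖ ≤ ‖aeval q p‖ * ‖w n - q‖ :=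
      mul_le_mul_of_nonneg_left e1 (norm_nonneg _)
    nlinarith [e3, e4]

/-- The value of a polynomial along a convergent sequence of points is bounded. -/
theorem stepA_bdd {l : Filter ℕ} {w : ℕ → Fin N → Ω} {q : Fin N → Ω}
    (hw : Tendsto w l (𝓝 q)) (p : MvPolynomial (Fin N) K) :
    ∃ C : ℝ, 0 ≤ C ∧ ∀ᶠ n in l, ‖aeval (w n) p‖ ≤ C := by
  obtain ⟨C, hC, h⟩ := stepA_lip hw p
  have h1 : ∀ᶠ n in l, ‖w n - q‖ ≤ 1 := by
    have := (tendsto_iff_norm_sub_tendsto_zero.mp hw).eventually (Iio_mem_nhds one_pos)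
    filter_upwards [this] with n hn using (Set.mem_Iio.mp hn).le
  refine ⟨‖aeval q p‖ + C, by positivity, ?_⟩
  filter_upwards [h, h1] with n hn hn1
  have : aeval (w n) p = aeval q p + (aeval (w n) p - aeval q p) := by ring
  rw [this]
  refine (norm_add_le _ _).trans ?_
  have : C * ‖w n - q‖ ≤ C * 1 := mul_le_mul_of_nonneg_left hn1 hC
  linarith

/-- The value of a polynomial is continuous. -/
theorem stepA_tendsto {l : Filter ℕ} {w : ℕ → Fin N → Ω} {q : Fin N → Ω}
    (hw : Tendsto w l (𝓝 q)) (p : MvPolynomial (Fin N) K) :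
    Tendsto (fun n => aeval (w n) p) l (𝓝 (aeval q p)) := by
  obtain ⟨C, hC, h⟩ := stepA_lip hw p
  rw [tendsto_iff_norm_sub_tendsto_zero]
  refine squeeze_zero' (Eventually.of_forall fun n => norm_nonneg _) h ?_
  have := (tendsto_iff_norm_sub_tendsto_zero.mp hw).const_mul C
  simpa using this

/-- The evaluation homomorphism. -/
noncomputable def stepA_ev (Ω : Type) [NormedField Ω] [Algebra K Ω] (w : Fin N → Ω) :
    MvPolynomial (Fin N) K →+* Ω :=
  ((aeval w : MvPolynomial (Fin N) K →ₐ[K] Ω) : MvPolynomial (Fin N) K →+* Ω)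

theorem stepA_ev_apply (w : Fin N → Ω) (p : MvPolynomial (Fin N) K) :
    stepA_ev Ω w p = aeval w p := rfl

/-- Roots of monic polynomials with bounded coefficients are bounded. -/
theorem stepA_root_bdd {l : Filter ℕ} {w : ℕ → Fin N → Ω} {q : Fin N → Ω}
    (hw : Tendsto w l (𝓝 q)) {R : Polynomial (MvPolynomial (Fin N) K)} (hR : R.Monic)
    {x : ℕ → Ω} (hx : ∀ᶠ n in l, (R.map (stepA_ev Ω (w n))).eval (x n) = 0) :
    ∃ B : ℝ, 0 ≤ B ∧ ∀ᶠ n in l, ‖x n‖ ≤ B := by
  choose C hC h using fun j => stepA_bdd hw (R.coeff j)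
  have h' : ∀ᶠ n in l, ∀ j ∈ Finset.range R.natDegree, ‖aeval (w n) (R.coeff j)‖ ≤ C j := by
    rw [Filter.eventually_all_finset]
    exact fun j _ => h j
  refine ⟨(∑ j ∈ Finset.range R.natDegree, C j) + 1,
    add_nonneg (Finset.sum_nonneg fun j _ => hC j) zero_le_one, ?_⟩
  filter_upwards [hx, h'] with n hn hn'
  have hm : (R.map (stepA_ev Ω (w n))).Monic := hR.map _
  have h1 := Polynomial.IsRoot.norm_lt_cauchyBound hm.ne_zero (a := x n) hn
  have h2 : ((R.map (stepA_ev Ω (w n))).cauchyBound : ℝ) ≤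
      (∑ j ∈ Finset.range R.natDegree, C j) + 1 := by
    have h3 : (Finset.range (R.map (stepA_ev Ω (w n))).natDegree).sup
        (‖(R.map (stepA_ev Ω (w n))).coeff ·‖₊) ≤
        Real.toNNReal (∑ j ∈ Finset.range R.natDegree, C j) := by
      refine Finset.sup_le fun j hj => ?_
      rw [hR.natDegree_map] at hj
      rw [← NNReal.coe_le_coe, Real.coe_toNNReal _ (Finset.sum_nonneg fun j _ => hC j),
        coe_nnnorm, Polynomial.coeff_map, stepA_ev_apply]
      exact (hn' j hj).trans (Finset.single_le_sum (fun j _ => hC j) hj)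
    unfold Polynomial.cauchyBound
    rw [hm.leadingCoeff, nnnorm_one, div_one, NNReal.coe_add, NNReal.coe_one]
    have h4 := NNReal.coe_le_coe.mpr h3
    rw [Real.coe_toNNReal _ (Finset.sum_nonneg fun j _ => hC j)] at h4
    linarith
  have h5 : ‖x n‖ < ((R.map (stepA_ev Ω (w n))).cauchyBound : ℝ) := by
    have := NNReal.coe_lt_coe.mpr h1
    rwa [coe_nnnorm] at this
  linarith

/-- Lipschitz estimate for the values of a polynomial with polynomial coefficients. -/
theorem stepA_lipP {l : Filter ℕ} {w : ℕ → Fin N → Ω} {q : Fin N → Ω}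
    (hw : Tendsto w l (𝓝 q)) {x : ℕ → Ω} {B : ℝ} (hB : 0 ≤ B) (hx : ∀ᶠ n in l, ‖x n‖ ≤ B)
    (R : Polynomial (MvPolynomial (Fin N) K)) :
    ∃ C : ℝ, 0 ≤ C ∧ ∀ᶠ n in l, ‖(R.map (stepA_ev Ω (w n))).eval (x n) -
      (R.map (stepA_ev Ω q)).eval (x n)‖ ≤ C * ‖w n - q‖ := by
  induction R using Polynomial.induction_on' with
  | add p p' hp hp' =>
    obtain ⟨C, hC, h⟩ := hp
    obtain ⟨C', hC', h'⟩ := hp'
    refine ⟨C + C', by positivity, ?_⟩
    filter_upwards [h, h'] with n hn hn'
    rw [Polynomial.map_add, Polynomial.map_add, Polynomial.eval_add, Polynomial.eval_add,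
      add_sub_add_comm, add_mul]
    exact (norm_add_le _ _).trans (add_le_add hn hn')
  | monomial j a =>
    obtain ⟨C, hC, h⟩ := stepA_lip hw a
    refine ⟨C * B ^ j, by positivity, ?_⟩
    filter_upwards [h, hx] with n hn hxn
    rw [Polynomial.map_monomial, Polynomial.map_monomial, Polynomial.eval_monomial,
      Polynomial.eval_monomial, ← sub_mul, norm_mul, norm_pow, stepA_ev_apply, stepA_ev_apply]
    calc _ ≤ (C * ‖w n - q‖) * B ^ j :=
          mul_le_mul hn (pow_le_pow_left₀ (norm_nonneg _) hxn j) (by positivity) (by positivity)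
      _ = _ := by ring

/-- The nearest root. -/
theorem stepA_near [IsAlgClosed Ω] {r : Polynomial Ω} (hr : r.Monic) (hd : 0 < r.natDegree)
    (x : Ω) : ∃ ρ ∈ {ρ : Ω | r.IsRoot ρ}, ‖x - ρ‖ ^ r.natDegree ≤ ‖r.eval x‖ := by
  classical
  have hs : r.Splits := IsAlgClosed.splits r
  have hcard : Multiset.card r.roots = r.natDegree := hs.natDegree_eq_card_roots.symm
  have hprod : r = (r.roots.map fun a => Polynomial.X - Polynomial.C a).prod :=
    hs.eq_prod_roots_of_monic hr
  have hne : r.roots.toFinset.Nonempty := by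
    rw [Multiset.toFinset_nonempty]
    intro h0
    rw [h0, Multiset.card_zero] at hcard
    omega
  obtain ⟨ρ, hρ, hmin⟩ := Finset.exists_min_image r.roots.toFinset (fun ρ => ‖x - ρ‖) hne
  rw [Multiset.mem_toFinset] at hρ
  refine ⟨ρ, (Polynomial.mem_roots hr.ne_zero).mp hρ, ?_⟩
  have e : ‖r.eval x‖ = (r.roots.map fun a => ‖x - a‖).prod := by
    conv_lhs => rw [hprod]
    rw [Polynomial.eval_multiset_prod, Multiset.map_map, ← normHom_apply, map_multiset_prod,
      Multiset.map_map]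
    simp
  rw [e, ← hcard]
  have e2 : ‖x - ρ‖ ^ Multiset.card r.roots = (r.roots.map fun _ => ‖x - ρ‖).prod := by
    simp
  rw [e2]
  refine Multiset.prod_map_le_prod_map₀ _ _ (fun a _ => norm_nonneg _) fun a ha => ?_
  exact hmin a (Multiset.mem_toFinset.mpr ha)

/-- The relation between a point and its image. -/
theorem stepA_rel {F : Fin N → MvPolynomial (Fin N) K} {i : Fin N}
    {R : Polynomial (MvPolynomial (Fin N) K)}
    (hR : (R.map ((bind₁ F : MvPolynomial (Fin N) K →ₐ[K] MvPolynomial (Fin N) K) :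
      MvPolynomial (Fin N) K →+* MvPolynomial (Fin N) K)).eval (X i) = 0) (u : Fin N → Ω) :
    (R.map (stepA_ev Ω (step F u))).eval (u i) = 0 := by
  have h := congrArg (stepA_ev Ω u) hR
  rw [map_zero, Polynomial.eval_map, Polynomial.hom_eval₂] at h
  rw [Polynomial.eval_map]
  have e1 : (stepA_ev Ω u) (X i : MvPolynomial (Fin N) K) = u i := by
    rw [stepA_ev_apply, aeval_X]
  have e2 : (stepA_ev Ω u).comp ((bind₁ F : MvPolynomial (Fin N) K →ₐ[K]
      MvPolynomial (Fin N) K) : MvPolynomial (Fin N) K →+* MvPolynomial (Fin N) K) =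
      stepA_ev Ω (step F u) := by
    refine RingHom.ext fun p => ?_
    change aeval u (bind₁ F p) = aeval (step F u) p
    rw [aeval_bind₁]
    rfl
  rw [e1, e2] at h
  exact h

/-- Algebraicity of the roots. -/
theorem stepA_alg {R : Polynomial (MvPolynomial (Fin N) K)} (hR : R.Monic) {q : Fin N → Ω}
    (hq : ∀ i, IsAlgebraic K (q i)) {ρ : Ω} (hρ : (R.map (stepA_ev Ω q)).IsRoot ρ) :
    IsAlgebraic K ρ := by
  have hq' : ∀ i, q i ∈ integralClosure K Ω := fun i =>
    (isAlgebraic_iff_isIntegral.mp (hq i))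
  let q0 : Fin N → integralClosure K Ω := fun i => ⟨q i, hq' i⟩
  have hint : IsIntegral (integralClosure K Ω) ρ := by
    refine ⟨R.map ((aeval q0 : MvPolynomial (Fin N) K →ₐ[K] integralClosure K Ω) :
      MvPolynomial (Fin N) K →+* integralClosure K Ω), hR.map _, ?_⟩
    rw [Polynomial.eval₂_map]
    rw [Polynomial.IsRoot.def, Polynomial.eval_map] at hρ
    have e : (algebraMap (integralClosure K Ω) Ω).comp
        ((aeval q0 : MvPolynomial (Fin N) K →ₐ[K] integralClosure K Ω) :
        MvPolynomial (Fin N) K →+* integralClosure K Ω) = stepA_ev Ω q := by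
      refine RingHom.ext fun p => ?_
      change algebraMap (integralClosure K Ω) Ω (aeval q0 p) = aeval q p
      rw [← MvPolynomial.aeval_algebraMap_apply]
      rfl
    rw [e]
    exact hρ
  exact isAlgebraic_iff_isIntegral.mpr (isIntegral_trans ρ hint)

end aux

variable {K Ω : Type} [Field K] [NormedField Ω] [IsAlgClosed Ω] [Algebra K Ω] {N : ℕ}

/-- If the images `F(u n)` tend to `q` with rate `κ`, then `u n` tends to a preimage `q'` of `q`
with rate `κ / t`, where `t` depends only on `F`. -/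
theorem exists_pre {F : Fin N → MvPolynomial (Fin N) K} {t : ℕ} (ht : 1 ≤ t) (hint : IntBy F t)
    {𝒰 : Ultrafilter ℕ} {s : ℕ → ℝ} (hs : Tendsto s (𝒰 : Filter ℕ) atTop) {u : ℕ → Fin N → Ω}
    {q : Fin N → Ω} {κ : ℝ} (hκ : 0 < κ) (h : App 𝒰 s (fun n => step F (u n)) q κ) :
    ∃ q' : Fin N → Ω, step F q' = q ∧
      ((∀ i, IsAlgebraic K (q i)) → ∀ i, IsAlgebraic K (q' i)) ∧ App 𝒰 s u q' (κ / t) := by
  obtain ⟨C, hC⟩ := h
  have hexp : Tendsto (fun n => C * Real.exp (-κ * s n)) (𝒰 : Filter ℕ) (𝓝 0) := by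
    have h1 : Tendsto (fun n => -κ * s n) (𝒰 : Filter ℕ) atBot :=
      hs.const_mul_atTop_of_neg (by linarith)
    have h2 := (Real.tendsto_exp_atBot.comp h1).const_mul C
    simpa using h2
  have hw : Tendsto (fun n => step F (u n)) (𝒰 : Filter ℕ) (𝓝 q) := by
    rw [tendsto_iff_norm_sub_tendsto_zero]
    exact squeeze_zero' (Eventually.of_forall fun n => norm_nonneg _) hC hexp
  have hC0 : ∀ᶠ n in (𝒰 : Filter ℕ), ‖step F (u n) - q‖ ≤ (|C|) * Real.exp (-κ * s n) := by
    filter_upwards [hC] with n hn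
    exact hn.trans (mul_le_mul_of_nonneg_right (le_abs_self C) (Real.exp_pos _).le)
  choose R hRm hRd hR using hint
  have hroot : ∀ i n, ((R i).map (stepA_ev Ω (step F (u n)))).eval (u n i) = 0 :=
    fun i n => stepA_rel (hR i) (u n)
  have key : ∀ i, ∃ ρ : Ω, ((R i).map (stepA_ev Ω q)).IsRoot ρ ∧ ∃ M : ℝ, 0 ≤ M ∧
      ∀ᶠ n in (𝒰 : Filter ℕ), ‖u n i - ρ‖ ≤ M * Real.exp (-(κ / t) * s n) := by
    intro i
    obtain ⟨B, hB, hxB⟩ := stepA_root_bdd hw (hRm i) (x := fun n => u n i)
      (Eventually.of_forall fun n => hroot i n)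
    obtain ⟨A, hA, hlip⟩ := stepA_lipP hw hB hxB (R i)
    set r : Polynomial Ω := (R i).map (stepA_ev Ω q) with hr
    have hrm : r.Monic := (hRm i).map _
    have hdeg : r.natDegree = (R i).natDegree := (hRm i).natDegree_map _
    have hdpos : 0 < r.natDegree := by
      rw [hdeg]
      by_contra h0
      have h1 : (R i).natDegree = 0 := by omega
      have h2 : R i = 1 := (hRm i).natDegree_eq_zero.mp h1
      have h3 := hR i
      rw [h2, Polynomial.map_one, Polynomial.eval_one] at h3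
      exact one_ne_zero h3
    have hdt : r.natDegree ≤ t := hdeg.trans_le (hRd i)
    set M : ℝ := max (A * |C|) 1 with hM
    have hM1 : 1 ≤ M := le_max_right _ _
    have hev : ∀ᶠ n in (𝒰 : Filter ℕ), ∃ ρ ∈ {ρ : Ω | r.IsRoot ρ},
        ‖u n i - ρ‖ ≤ M * Real.exp (-(κ / t) * s n) := by
      filter_upwards [hlip, hC0, hs.eventually_ge_atTop 0] with n hn hcn hsn
      obtain ⟨ρ, hρ, hle⟩ := stepA_near hrm hdpos (u n i)
      refine ⟨ρ, hρ, ?_⟩
      by_contra hlt
      push Not at hlt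
      have h1 : ‖r.eval (u n i)‖ ≤ M * Real.exp (-κ * s n) := by
        have h2 : ‖r.eval (u n i)‖ ≤ A * ‖step F (u n) - q‖ := by
          have h3 := hn
          simp only [hroot i n, zero_sub, norm_neg] at h3
          exact h3
        refine h2.trans ((mul_le_mul_of_nonneg_left hcn hA).trans ?_)
        rw [← mul_assoc]
        exact mul_le_mul_of_nonneg_right (le_max_left _ _) (Real.exp_pos _).le
      have h4 : (M * Real.exp (-(κ / t) * s n)) ^ r.natDegree < ‖u n i - ρ‖ ^ r.natDegree :=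
        pow_lt_pow_left₀ hlt (by positivity) hdpos.ne'
      have h5 : M * Real.exp (-κ * s n) ≤ (M * Real.exp (-(κ / t) * s n)) ^ r.natDegree := by
        rw [mul_pow, ← Real.exp_nat_mul]
        refine mul_le_mul (le_self_pow₀ hM1 hdpos.ne') (Real.exp_le_exp.mpr ?_)
          (Real.exp_pos _).le (by positivity)
        have ht0 : (0 : ℝ) < t := by exact_mod_cast ht
        have hdt' : (r.natDegree : ℝ) ≤ t := by exact_mod_cast hdt
        have h6 : (r.natDegree : ℝ) * (κ / t) ≤ κ := by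
          rw [mul_div_assoc', div_le_iff₀ ht0]
          nlinarith
        nlinarith [mul_le_mul_of_nonneg_right h6 hsn]
      exact absurd (hle.trans h1) (not_le.mpr (h5.trans_lt h4))
    obtain ⟨ρ, hρ, hρ2⟩ := (Ultrafilter.eventually_exists_mem_iff
      (Polynomial.finite_setOfPred_isRoot hrm.ne_zero)).mp hev
    exact ⟨ρ, hρ, M, by positivity, hρ2⟩
  choose ρ hρ M hM0 hM using key
  have happ : App 𝒰 s u ρ (κ / t) := by
    refine ⟨∑ i, M i, ?_⟩
    have h1 : ∀ᶠ n in (𝒰 : Filter ℕ), ∀ i, ‖u n i - ρ i‖ ≤ M i * Real.exp (-(κ / t) * s n) := by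
      rw [Filter.eventually_all]
      exact hM
    filter_upwards [h1] with n hn
    have hS : 0 ≤ ∑ i, M i := Finset.sum_nonneg fun i _ => hM0 i
    rw [pi_norm_le_iff_of_nonneg (by positivity)]
    intro i
    refine (hn i).trans (mul_le_mul_of_nonneg_right ?_ (Real.exp_pos _).le)
    exact Finset.single_le_sum (fun i _ => hM0 i) (Finset.mem_univ i)
  refine ⟨ρ, ?_, fun hq i => stepA_alg (hRm i) hq (hρ i), happ⟩
  have hu : Tendsto u (𝒰 : Filter ℕ) (𝓝 ρ) := by
    obtain ⟨C', hC'⟩ := happ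
    rw [tendsto_iff_norm_sub_tendsto_zero]
    refine squeeze_zero' (Eventually.of_forall fun n => norm_nonneg _) hC' ?_
    have ht0 : (0 : ℝ) < t := by exact_mod_cast ht
    have h1 : Tendsto (fun n => -(κ / t) * s n) (𝒰 : Filter ℕ) atBot :=
      hs.const_mul_atTop_of_neg (by have := div_pos hκ ht0; linarith)
    have h2 := (Real.tendsto_exp_atBot.comp h1).const_mul C'
    simpa using h2
  funext i
  have h1 : Tendsto (fun n => step F (u n) i) (𝒰 : Filter ℕ) (𝓝 (step F ρ i)) :=
    stepA_tendsto hu (F i)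
  have h2 : Tendsto (fun n => step F (u n) i) (𝒰 : Filter ℕ) (𝓝 (q i)) :=
    (tendsto_pi_nhds.mp hw) i
  exact tendsto_nhds_unique h1 h2

end Pool.Agent.Helper65.TB
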